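import Pool.Agent.Run7.h571.RD.Main

/-!
# Ramsey numbers of distance colourings: when is the growth rate zero

Helper file for `MP_28724c_co.DistanceColourings`.
-/

open Filter Topology

namespace Run7.h571.RD

lemma log_dr_nonneg (r k : ℕ) : 0 ≤ Real.log (distRamsey r k) := Real.log_natCast_nonneg _

theorem growth (r : ℕ → ℕ) :
    Tendsto (fun k : ℕ => Real.log (distRamsey (r k) k) / k) atTop (𝓝 0) ↔
      Tendsto (fun k : ℕ => (r k : ℝ) / (k : ℝ) ^ 2) atTop (𝓝 0) := by
  constructor
  · intro h
    obtain ⟨c, hc, hlow⟩ := lower_bound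
    have h1 : Tendsto (fun k : ℕ => min (1 : ℝ) (√(r k) / k)) atTop (𝓝 0) := by
      have h2 : Tendsto (fun k : ℕ => c⁻¹ * (Real.log (distRamsey (r k) k) / k)) atTop (𝓝 0) := by
        simpa using h.const_mul c⁻¹
      refine squeeze_zero' (Eventually.of_forall fun k => by positivity) ?_ h2
      filter_upwards [eventually_ge_atTop 2] with k hk
      have hk0 : (0 : ℝ) < k := by
        have : 0 < k := by omega
        exact_mod_cast this
      have h3 : c * min (k : ℝ) (√(r k)) ≤ Real.log (distRamsey (r k) k) := by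
        rcases Nat.eq_zero_or_pos (r k) with h0 | h0
        · rw [h0, Nat.cast_zero, Real.sqrt_zero, min_eq_right hk0.le, mul_zero]
          exact log_dr_nonneg 0 k
        · exact hlow (r k) k h0 hk
      have h4 : min (1 : ℝ) (√(r k) / k) = min (k : ℝ) (√(r k)) / k := by
        rw [← min_div_div_right hk0.le, div_self hk0.ne']
      rw [h4, le_inv_mul_iff₀ hc, mul_div_assoc', div_le_div_iff_of_pos_right hk0]
      exact h3
    have h2 : Tendsto (fun k : ℕ => √(r k : ℝ) / k) atTop (𝓝 0) := by
      refine h1.congr' ?_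
      have h3 : ∀ᶠ k : ℕ in atTop, min (1 : ℝ) (√(r k) / k) < 1 :=
        h1.eventually_lt_const one_pos
      filter_upwards [h3] with k hk
      rcases min_lt_iff.mp hk with h4 | h4
      · exact absurd h4 (lt_irrefl _)
      · exact min_eq_right h4.le
    have h3 := h2.mul h2
    rw [zero_mul] at h3
    refine h3.congr fun k => ?_
    rw [div_mul_div_comm, Real.mul_self_sqrt (Nat.cast_nonneg _), sq]
  · intro h
    obtain ⟨C, hC, hup⟩ := upper_bound
    -- `z k` is `√(max (r k) 1) / k`
    let z : ℕ → ℝ := fun k => √((max (r k) 1 : ℕ) : ℝ) / k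
    have hz2 : Tendsto (fun k => z k ^ 2) atTop (𝓝 0) := by
      have h1 : Tendsto (fun k : ℕ => (r k : ℝ) / (k : ℝ) ^ 2 + 1 / (k : ℝ) ^ 2) atTop (𝓝 0) := by
        have h2 : Tendsto (fun k : ℕ => 1 / (k : ℝ) ^ 2) atTop (𝓝 0) := by
          have := tendsto_one_div_atTop_nhds_zero_nat (𝕜 := ℝ)
          have h3 := this.mul this
          rw [zero_mul] at h3
          refine h3.congr fun k => ?_
          rw [div_mul_div_comm, one_mul, sq]
        simpa using h.add h2
      refine squeeze_zero (fun k => by positivity) (fun k => ?_) h1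
      simp only [z]
      rw [div_pow, Real.sq_sqrt (Nat.cast_nonneg _), ← add_div]
      apply div_le_div_of_nonneg_right _ (by positivity)
      exact_mod_cast max_le (by omega) (by omega)
    have hz : Tendsto z atTop (𝓝 0) := by
      have h1 := (Real.continuous_sqrt.tendsto 0).comp hz2
      rw [Real.sqrt_zero] at h1
      refine h1.congr fun k => ?_
      simp only [Function.comp_apply]
      exact Real.sqrt_sq (by simp only [z]; positivity)
    have hlog : Tendsto (fun k : ℕ => Real.log k / k) atTop (𝓝 0) := by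
      have h1 := (Real.tendsto_pow_log_div_mul_add_atTop 1 0 1 one_ne_zero).comp
        (tendsto_natCast_atTop_atTop (R := ℝ))
      refine h1.congr fun k => ?_
      simp
    have hmain : Tendsto (fun k : ℕ => C * (Real.log k / k + √(z k ^ 2 + z k))) atTop (𝓝 0) := by
      have h1 : Tendsto (fun k => √(z k ^ 2 + z k)) atTop (𝓝 0) := by
        have h2 : Tendsto (fun k => z k ^ 2 + z k) atTop (𝓝 0) := by simpa using hz2.add hz
        have h3 := (Real.continuous_sqrt.tendsto 0).comp h2
        rw [Real.sqrt_zero] at h3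
        exact h3
      simpa using (hlog.add h1).const_mul C
    refine squeeze_zero' (Eventually.of_forall fun k =>
      div_nonneg (log_dr_nonneg _ _) (Nat.cast_nonneg _)) ?_ hmain
    filter_upwards [eventually_ge_atTop 2] with k hk
    have hk0 : (0 : ℝ) < k := by
      have : 0 < k := by omega
      exact_mod_cast this
    set R := max (r k) 1 with hR
    have hR1 : 1 ≤ R := le_max_right _ _
    have hR0 : (0 : ℝ) < R := by exact_mod_cast hR1
    have hq : 0 < √(R : ℝ) := Real.sqrt_pos.mpr hR0
    have h1 : Real.log (distRamsey (r k) k) ≤ Real.log (distRamsey R k) := by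
      apply Real.log_le_log
      · have := le_distRamsey (r k) k
        exact_mod_cast lt_of_lt_of_le (by omega) this
      · exact_mod_cast distRamsey_mono_r k (le_max_left _ _)
    have h2 := h1.trans (hup R k hR1 hk)
    have hzk : z k = √(R : ℝ) / k := rfl
    have hz0 : 0 < z k := by rw [hzk]; positivity
    have h3 : √(R * Real.log (2 + k / √R)) ≤ k * √(z k ^ 2 + z k) := by
      have h4 : (k : ℝ) * √(z k ^ 2 + z k) = √(k ^ 2 * (z k ^ 2 + z k)) := by
        rw [Real.sqrt_mul (by positivity), Real.sqrt_sq hk0.le]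
      rw [h4]
      apply Real.sqrt_le_sqrt
      have h5 : Real.log (2 + k / √R) ≤ 1 + 1 / z k := by
        have h6 : (k : ℝ) / √R = 1 / z k := by rw [hzk]; field_simp
        rw [h6]
        have := Real.log_le_sub_one_of_pos (show (0 : ℝ) < 2 + 1 / z k by positivity)
        linarith
      have h7 : (R : ℝ) = k ^ 2 * z k ^ 2 := by
        rw [hzk, div_pow, Real.sq_sqrt hR0.le]; field_simp
      calc (R : ℝ) * Real.log (2 + k / √R) ≤ R * (1 + 1 / z k) := by gcongr
        _ = k ^ 2 * (z k ^ 2 + z k) := by rw [h7]; field_simp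
    rw [div_le_iff₀ hk0]
    calc Real.log (distRamsey (r k) k) ≤ C * (Real.log k + √(R * Real.log (2 + k / √R))) := h2
      _ ≤ C * (Real.log k + k * √(z k ^ 2 + z k)) := by gcongr
      _ = C * (Real.log k / k + √(z k ^ 2 + z k)) * k := by field_simp

end Run7.h571.RD
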