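import Pool.Agent.Run7.h571.RD.Rad

/-!
# Random sign vectors: large sets of vectors without large sets of pairwise acute or obtuse vectors

Helper file for `MP_28724c_co.DistanceColourings`.
-/

set_option linter.unusedSectionVars false

namespace Run7.h571.RD

variable {V : Type} [Fintype V] [DecidableEq V] {r : ℕ}

/-- the inner product of the sign vectors of `i` and `j` -/
def S (i j : V) (ω : Fin r → V → Bool) : ℝ := ∑ l, sg (ω l i) * sg (ω l j)

lemma sum_S (A B : Finset V) (lam : V → V → ℝ) (ω : Fin r → V → Bool) :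
    ∑ i ∈ A, ∑ j ∈ B, lam i j * S i j ω = ∑ l, Q A B lam (ω l) := by
  unfold S Q
  simp only [Finset.mul_sum]
  symm
  rw [Finset.sum_comm]
  refine Finset.sum_congr rfl fun i _ => ?_
  rw [Finset.sum_comm]

/-- the characteristic function of the inner products -/
lemma char_S {A B : Finset V} (hAB : Disjoint A B) (lam : V → V → ℝ) :
    ∑ ω : Fin r → V → Bool,
      Complex.exp (((∑ i ∈ A, ∑ j ∈ B, lam i j * S i j ω : ℝ) : ℂ) * Complex.I) =
      (((∑ φ, Real.cos (Q A B lam φ)) ^ r : ℝ) : ℂ) := by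
  rw [Complex.ofReal_pow, ← cexpQ hAB, Fintype.sum_pow]
  refine Finset.sum_congr rfl fun ω _ => ?_
  rw [sum_S, Complex.ofReal_sum, Finset.sum_mul, Complex.exp_sum]

lemma char_S_le {A B : Finset V} (hAB : Disjoint A B) (lam : V → V → ℝ)
    (hw : ∑ i ∈ A, ∑ j ∈ B, lam i j ^ 2 ≤ 1 / 45) :
    (∑ φ, Real.cos (Q A B lam φ)) ^ r ≤
      NN V ^ r * Real.exp (-(2 / 5 * r * ∑ i ∈ A, ∑ j ∈ B, lam i j ^ 2)) := by
  set w := ∑ i ∈ A, ∑ j ∈ B, lam i j ^ 2 with hwdef
  have hN : 0 < NN V := NN_pos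
  calc (∑ φ, Real.cos (Q A B lam φ)) ^ r ≤ (NN V * (1 - 2 / 5 * w)) ^ r :=
        pow_le_pow_left₀ (cosQ_ge hAB lam hw) (cosQ_le hAB lam hw) r
    _ ≤ (NN V * Real.exp (-(2 / 5 * w))) ^ r := by
        apply pow_le_pow_left₀
        · apply mul_nonneg hN.le; linarith
        · apply mul_le_mul_of_nonneg_left _ hN.le
          have := Real.add_one_le_exp (-(2 / 5 * w))
          linarith
    _ = _ := by
        rw [mul_pow, ← Real.exp_nat_mul]
        congr 2; ring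

/-- the exponential moment of the sum of the inner products -/
lemma exp_S {A B : Finset V} (hAB : Disjoint A B) (θ : ℝ)
    (hθ : θ ^ 2 * A.card / 2 * B.card ≤ 1 / 4) :
    ∑ ω : Fin r → V → Bool, Real.exp (∑ i ∈ A, ∑ j ∈ B, θ * S i j ω) ≤
      NN V ^ r * Real.exp (r * (θ ^ 2 * A.card * B.card)) := by
  have h1 : ∑ ω : Fin r → V → Bool, Real.exp (∑ i ∈ A, ∑ j ∈ B, θ * S i j ω) =
      (∑ φ, Real.exp (Q A B (fun _ _ => θ) φ)) ^ r := by
    rw [Fintype.sum_pow]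
    refine Finset.sum_congr rfl fun ω _ => ?_
    rw [sum_S A B (fun _ _ => θ), Real.exp_sum]
  rw [h1, Real.exp_nat_mul, ← mul_pow]
  exact pow_le_pow_left₀ (Finset.sum_nonneg fun _ _ => Real.exp_nonneg _) (expQ hAB θ hθ) r

/-! ### Coefficients supported on a set of pairs -/

/-- extension by zero -/
noncomputable def ext (H : Finset (V × V)) (f : H → ℝ) (i j : V) : ℝ :=
  if h : (i, j) ∈ H then f ⟨(i, j), h⟩ else 0

lemma sum_ext {A B : Finset V} {H : Finset (V × V)} (hH : H ⊆ A ×ˢ B) (f : H → ℝ)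
    (X : V → V → ℝ) :
    ∑ i ∈ A, ∑ j ∈ B, ext H f i j * X i j = ∑ p : H, f p * X p.1.1 p.1.2 := by
  rw [← Finset.sum_product' A B (fun i j => ext H f i j * X i j)]
  rw [← Finset.sum_subset hH]
  · rw [← Finset.sum_coe_sort H]
    refine Finset.sum_congr rfl fun p _ => ?_
    simp [ext, p.2]
  · intro p _ hp
    simp [ext, hp]

lemma sum_ext_sq {A B : Finset V} {H : Finset (V × V)} (hH : H ⊆ A ×ˢ B) (f : H → ℝ) :
    ∑ i ∈ A, ∑ j ∈ B, ext H f i j ^ 2 = ∑ p : H, f p ^ 2 := by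
  have h1 : ∑ i ∈ A, ∑ j ∈ B, ext H f i j ^ 2 = ∑ i ∈ A, ∑ j ∈ B, ext H f i j * ext H f i j := by
    refine Finset.sum_congr rfl fun i _ => Finset.sum_congr rfl fun j _ => by ring
  rw [h1, sum_ext hH f (ext H f)]
  refine Finset.sum_congr rfl fun p _ => ?_
  rw [sq]
  congr 1
  simp [ext, p.2]

/-! ### The Fejer kernel -/

/-- the (unnormalised) Fejer kernel, as a complex sum -/
noncomputable def fejC (ξ : ℝ) : ℂ :=
  ∑ q : Fin 32 × Fin 32, Complex.exp (((3 * ((q.1 : ℕ) - (q.2 : ℕ) : ℝ) * ξ : ℝ) : ℂ) * Complex.I)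

/-- the (unnormalised) Fejer kernel, as a real sum -/
noncomputable def fej (ξ : ℝ) : ℝ :=
  ∑ q : Fin 32 × Fin 32, Real.cos (3 * ((q.1 : ℕ) - (q.2 : ℕ) : ℝ) * ξ)

lemma fejC_eq (ξ : ℝ) : fejC ξ = (fej ξ : ℂ) := by
  unfold fejC fej
  simp only [Complex.exp_mul_I]
  rw [Finset.sum_add_distrib, ← Finset.sum_mul]
  have h1 : ∑ q : Fin 32 × Fin 32, Complex.sin ((3 * ((q.1 : ℕ) - (q.2 : ℕ) : ℝ) * ξ : ℝ) : ℂ) = 0 := by
    have h2 : ∑ q : Fin 32 × Fin 32, Complex.sin ((3 * ((q.1 : ℕ) - (q.2 : ℕ) : ℝ) * ξ : ℝ) : ℂ) =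
        ∑ q : Fin 32 × Fin 32, Complex.sin ((3 * ((q.2 : ℕ) - (q.1 : ℕ) : ℝ) * ξ : ℝ) : ℂ) :=
      (Equiv.sum_comp (Equiv.prodComm (Fin 32) (Fin 32)) (fun q : Fin 32 × Fin 32 =>
        Complex.sin ((3 * ((q.1 : ℕ) - (q.2 : ℕ) : ℝ) * ξ : ℝ) : ℂ))).symm
    have h3 : ∀ q : Fin 32 × Fin 32, Complex.sin ((3 * ((q.2 : ℕ) - (q.1 : ℕ) : ℝ) * ξ : ℝ) : ℂ) =
        -Complex.sin ((3 * ((q.1 : ℕ) - (q.2 : ℕ) : ℝ) * ξ : ℝ) : ℂ) := by
      intro q
      rw [← Complex.sin_neg, ← Complex.ofReal_neg]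
      congr 2; ring
    simp only [h3, Finset.sum_neg_distrib] at h2
    have h4 : (2 : ℂ) * ∑ q : Fin 32 × Fin 32,
        Complex.sin ((3 * ((q.1 : ℕ) - (q.2 : ℕ) : ℝ) * ξ : ℝ) : ℂ) = 0 := by
      linear_combination h2
    rcases mul_eq_zero.mp h4 with h5 | h5
    · norm_num at h5
    · exact h5
  rw [h1, zero_mul, add_zero, Complex.ofReal_sum]
  exact Finset.sum_congr rfl fun q _ => by rw [Complex.ofReal_cos]

lemma fej_nonneg (ξ : ℝ) : 0 ≤ fej ξ := by
  have h1 : fejC ξ = (Complex.normSq (∑ a : Fin 32,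
      Complex.exp (((3 * ((a : ℕ) : ℝ) * ξ : ℝ) : ℂ) * Complex.I)) : ℂ) := by
    rw [Complex.normSq_eq_conj_mul_self, map_sum, Finset.sum_mul_sum]
    unfold fejC
    rw [Fintype.sum_prod_type, Finset.sum_comm]
    refine Finset.sum_congr rfl fun a _ => Finset.sum_congr rfl fun b _ => ?_
    rw [← Complex.exp_conj, ← Complex.exp_add]
    congr 1
    simp only [map_mul, Complex.conj_ofReal, Complex.conj_I]
    push_cast; ring
  rw [fejC_eq] at h1
  have h2 : fej ξ = Complex.normSq (∑ a : Fin 32,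
      Complex.exp (((3 * ((a : ℕ) : ℝ) * ξ : ℝ) : ℂ) * Complex.I)) := by exact_mod_cast h1
  rw [h2]; exact Complex.normSq_nonneg _

lemma abs_fin_sub_le (q : Fin 32 × Fin 32) : |((q.1 : ℕ) - (q.2 : ℕ) : ℝ)| ≤ 32 := by
  have h1 : ((q.1 : ℕ) : ℝ) ≤ 32 := by exact_mod_cast q.1.2.le
  have h2 : ((q.2 : ℕ) : ℝ) ≤ 32 := by exact_mod_cast q.2.2.le
  have h3 : (0 : ℝ) ≤ ((q.1 : ℕ) : ℝ) := Nat.cast_nonneg _
  have h4 : (0 : ℝ) ≤ ((q.2 : ℕ) : ℝ) := Nat.cast_nonneg _
  rw [abs_le]; constructor <;> linarith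

lemma fej_ge (ξ : ℝ) (hξ : |ξ| ≤ 1 / 128) : 3072 / 5 ≤ fej ξ := by
  unfold fej
  have h1 : ∀ q : Fin 32 × Fin 32, (3 : ℝ) / 5 ≤
      Real.cos (3 * ((q.1 : ℕ) - (q.2 : ℕ) : ℝ) * ξ) := by
    intro q
    refine le_trans ?_ (Real.one_sub_sq_div_two_le_cos)
    have h2 : |3 * ((q.1 : ℕ) - (q.2 : ℕ) : ℝ) * ξ| ≤ 3 / 4 := by
      rw [abs_mul, abs_mul]
      have h3 := abs_fin_sub_le q
      have h4 : |(3 : ℝ)| = 3 := abs_of_pos (by norm_num)
      rw [h4]
      calc 3 * |((q.1 : ℕ) - (q.2 : ℕ) : ℝ)| * |ξ| ≤ 3 * 32 * (1 / 128) := by gcongr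
        _ = 3 / 4 := by norm_num
    have h5 : (3 * ((q.1 : ℕ) - (q.2 : ℕ) : ℝ) * ξ) ^ 2 ≤ (3 / 4) ^ 2 := sq_le_sq' (by
      rw [abs_le] at h2; exact h2.1) (by rw [abs_le] at h2; exact h2.2)
    linarith
  calc (3072 : ℝ) / 5 = ∑ q : Fin 32 × Fin 32, (3 : ℝ) / 5 := by
        rw [Finset.sum_const, Finset.card_univ, Fintype.card_prod, Fintype.card_fin, nsmul_eq_mul]
        norm_num
    _ ≤ _ := Finset.sum_le_sum fun q _ => h1 q

lemma exp_sum_le : ∑ q : Fin 32 × Fin 32,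
    Real.exp (-(18 / 5 * ((q.1 : ℕ) - (q.2 : ℕ) : ℝ) ^ 2)) ≤ 64 := by
  have h1 : ∀ q : Fin 32 × Fin 32, Real.exp (-(18 / 5 * ((q.1 : ℕ) - (q.2 : ℕ) : ℝ) ^ 2)) ≤
      (if q.1 = q.2 then 1 else 0) + 1 / 32 := by
    intro q
    by_cases h : q.1 = q.2
    · rw [if_pos h, h]; simp
    · rw [if_neg h, zero_add]
      have h2 : (1 : ℝ) ≤ ((q.1 : ℕ) - (q.2 : ℕ) : ℝ) ^ 2 := by
        have h3 : ((q.1 : ℕ) : ℤ) - ((q.2 : ℕ) : ℤ) ≠ 0 := by
          intro h4
          apply h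
          apply Fin.ext; omega
        have h4 : (1 : ℤ) ≤ (((q.1 : ℕ) : ℤ) - ((q.2 : ℕ) : ℤ)) ^ 2 := by
          have := Int.one_le_abs h3
          rw [← sq_abs]; nlinarith
        exact_mod_cast h4
      calc Real.exp (-(18 / 5 * ((q.1 : ℕ) - (q.2 : ℕ) : ℝ) ^ 2)) ≤ Real.exp (-(18 / 5)) := by
            rw [Real.exp_le_exp]; linarith
        _ ≤ 1 / 32 := by
            rw [Real.exp_neg, one_div]
            apply inv_anti₀ (by norm_num)
            have h5 := Real.exp_one_gt_d9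
            have h6 : Real.exp (18 / 5) ^ 5 = Real.exp 1 ^ 18 := by
              rw [← Real.exp_nat_mul, ← Real.exp_nat_mul]; norm_num
            have h7 : (2.718 : ℝ) ^ 18 ≤ Real.exp 1 ^ 18 :=
              pow_le_pow_left₀ (by norm_num) (by linarith) 18
            have h8 : (32 : ℝ) ^ 5 ≤ Real.exp (18 / 5) ^ 5 := by
              rw [h6]; refine le_trans ?_ h7; norm_num
            exact le_of_pow_le_pow_left₀ (by norm_num) (Real.exp_nonneg _) h8
  refine (Finset.sum_le_sum fun q _ => h1 q).trans (le_of_eq ?_)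
  rw [Finset.sum_add_distrib, Finset.sum_const, Finset.card_univ, Fintype.card_prod,
    Fintype.card_fin, Fintype.sum_prod_type]
  simp
  norm_num


/-! ### Small ball -/

lemma prod_fej {A B : Finset V} (hAB : Disjoint A B) {H : Finset (V × V)} (hH : H ⊆ A ×ˢ B)
    (m : ℕ) (hA : A.card = m) (hB : B.card = m) (hr : 500000 * m ^ 2 ≤ r) (hr0 : 0 < r) :
    ∑ ω : Fin r → V → Bool, ∏ p : H, fej (S p.1.1 p.1.2 ω / √r) ≤ NN V ^ r * 64 ^ H.card := by
  have hrR : (500000 : ℝ) * m ^ 2 ≤ r := by exact_mod_cast hr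
  have hr0R : (0 : ℝ) < r := by exact_mod_cast hr0
  have hsq : √(r : ℝ) ^ 2 = r := Real.sq_sqrt hr0R.le
  have hs0 : 0 < √(r : ℝ) := Real.sqrt_pos.mpr hr0R
  let cf : (H → Fin 32 × Fin 32) → H → ℝ := fun g p =>
    3 * (((g p).1 : ℕ) - ((g p).2 : ℕ) : ℝ) / √r
  have hcf : ∀ g, ∑ p : H, cf g p ^ 2 ≤ 1 / 45 := by
    intro g
    have h1 : ∀ p : H, cf g p ^ 2 ≤ 9216 / r := by
      intro p
      simp only [cf]
      rw [div_pow, hsq, div_le_div_iff_of_pos_right hr0R, mul_pow]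
      have h2 := abs_fin_sub_le (g p)
      have h3 : (((g p).1 : ℕ) - ((g p).2 : ℕ) : ℝ) ^ 2 ≤ 32 ^ 2 := by
        rw [abs_le] at h2; exact sq_le_sq' h2.1 h2.2
      linarith
    have h2 : (H.card : ℝ) ≤ m ^ 2 := by
      have h3 := Finset.card_le_card hH
      rw [Finset.card_product, hA, hB, ← sq] at h3
      exact_mod_cast h3
    calc ∑ p : H, cf g p ^ 2 ≤ ∑ p : H, (9216 : ℝ) / r := Finset.sum_le_sum fun p _ => h1 p
      _ = H.card * (9216 / r) := by
          rw [Finset.sum_const, Finset.card_univ, Fintype.card_coe, nsmul_eq_mul]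
      _ ≤ m ^ 2 * (9216 / r) := by gcongr
      _ ≤ 1 / 45 := by
          rw [mul_div_assoc', div_le_iff₀ hr0R]
          nlinarith
  have hkey : ((∑ ω : Fin r → V → Bool, ∏ p : H, fej (S p.1.1 p.1.2 ω / √r) : ℝ) : ℂ) =
      ((∑ g : H → Fin 32 × Fin 32, (∑ φ, Real.cos (Q A B (ext H (cf g)) φ)) ^ r : ℝ) : ℂ) := by
    rw [Complex.ofReal_sum, Complex.ofReal_sum]
    have h1 : ∀ ω : Fin r → V → Bool, ((∏ p : H, fej (S p.1.1 p.1.2 ω / √r) : ℝ) : ℂ) =
        ∑ g : H → Fin 32 × Fin 32,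
          Complex.exp (((∑ i ∈ A, ∑ j ∈ B, ext H (cf g) i j * S i j ω : ℝ) : ℂ) * Complex.I) := by
      intro ω
      rw [Complex.ofReal_prod]
      simp only [← fejC_eq]
      unfold fejC
      rw [Finset.prod_univ_sum, Fintype.piFinset_univ]
      refine Finset.sum_congr rfl fun g _ => ?_
      rw [sum_ext hH (cf g) (fun i j => S i j ω), Complex.ofReal_sum, Finset.sum_mul,
        Complex.exp_sum]
      refine Finset.prod_congr rfl fun p _ => ?_
      congr 3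
      simp only [cf]
      ring
    rw [Finset.sum_congr rfl fun ω _ => h1 ω, Finset.sum_comm]
    exact Finset.sum_congr rfl fun g _ => char_S hAB _
  have hkey' := Complex.ofReal_injective hkey
  rw [hkey']
  have h2 : ∀ g : H → Fin 32 × Fin 32, (∑ φ, Real.cos (Q A B (ext H (cf g)) φ)) ^ r ≤
      NN V ^ r * ∏ p : H, Real.exp (-(18 / 5 * (((g p).1 : ℕ) - ((g p).2 : ℕ) : ℝ) ^ 2)) := by
    intro g
    have h3 := char_S_le (r := r) hAB (ext H (cf g)) (by rw [sum_ext_sq hH]; exact hcf g)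
    refine h3.trans (le_of_eq ?_)
    rw [← Real.exp_sum, sum_ext_sq hH]
    congr 2
    rw [Finset.mul_sum, ← Finset.sum_neg_distrib]
    refine Finset.sum_congr rfl fun p _ => ?_
    simp only [cf]
    rw [div_pow, hsq]
    field_simp
    ring
  refine (Finset.sum_le_sum fun g _ => h2 g).trans ?_
  rw [← Finset.mul_sum]
  apply mul_le_mul_of_nonneg_left _ (pow_nonneg NN_pos.le r)
  have h4 := Finset.prod_univ_sum (ι := H) (fun _ => (Finset.univ : Finset (Fin 32 × Fin 32)))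
    (fun _ q => Real.exp (-(18 / 5 * ((q.1 : ℕ) - (q.2 : ℕ) : ℝ) ^ 2)))
  rw [Fintype.piFinset_univ] at h4
  rw [← h4, Finset.prod_const, Finset.card_univ, Fintype.card_coe]
  exact pow_le_pow_left₀ (Finset.sum_nonneg fun _ _ => Real.exp_nonneg _) exp_sum_le _

lemma small_ball {A B : Finset V} (hAB : Disjoint A B) {H : Finset (V × V)} (hH : H ⊆ A ×ˢ B)
    (m : ℕ) (hA : A.card = m) (hB : B.card = m) (hr : 500000 * m ^ 2 ≤ r) (hr0 : 0 < r) :
    ((Finset.univ.filter fun ω : Fin r → V → Bool =>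
      ∀ p ∈ H, |S p.1 p.2 ω| ≤ √r / 128).card : ℝ) ≤ NN V ^ r * (5 / 48) ^ H.card := by
  classical
  have hr0R : (0 : ℝ) < r := by exact_mod_cast hr0
  have hs0 : 0 < √(r : ℝ) := Real.sqrt_pos.mpr hr0R
  set F := Finset.univ.filter fun ω : Fin r → V → Bool => ∀ p ∈ H, |S p.1 p.2 ω| ≤ √r / 128 with hF
  have h1 : (F.card : ℝ) * (3072 / 5) ^ H.card ≤
      ∑ ω : Fin r → V → Bool, ∏ p : H, fej (S p.1.1 p.1.2 ω / √r) := by
    calc (F.card : ℝ) * (3072 / 5) ^ H.card = ∑ ω ∈ F, (3072 / 5 : ℝ) ^ H.card := by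
          rw [Finset.sum_const, nsmul_eq_mul]
      _ ≤ ∑ ω ∈ F, ∏ p : H, fej (S p.1.1 p.1.2 ω / √r) := by
          refine Finset.sum_le_sum fun ω hω => ?_
          rw [hF, Finset.mem_filter] at hω
          have h2 : ((3072 : ℝ) / 5) ^ H.card = ∏ _p : H, (3072 / 5 : ℝ) := by
            rw [Finset.prod_const, Finset.card_univ, Fintype.card_coe]
          rw [h2]
          refine Finset.prod_le_prod (fun _ _ => by norm_num) fun p _ => ?_
          apply fej_ge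
          rw [abs_div, abs_of_pos hs0, div_le_iff₀ hs0]
          have := hω.2 p.1 p.2
          linarith
      _ ≤ _ := Finset.sum_le_sum_of_subset_of_nonneg (Finset.subset_univ _)
          fun ω _ _ => Finset.prod_nonneg fun p _ => fej_nonneg _
  have h3 := h1.trans (prod_fej hAB hH m hA hB hr hr0)
  have h4 : ((5 : ℝ) / 48) ^ H.card = 64 ^ H.card / (3072 / 5) ^ H.card := by
    rw [← div_pow]; norm_num
  rw [h4, mul_div_assoc', le_div_iff₀ (by positivity)]
  exact h3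

/-! ### Large sums -/

lemma large_sum {A B : Finset V} (hAB : Disjoint A B) (σ : ℝ) (hσ : σ ^ 2 = 1)
    (m : ℕ) (hA : A.card = m) (hB : B.card = m) (hr : 500000 * m ^ 2 ≤ r) (hr0 : 0 < r) :
    ((Finset.univ.filter fun ω : Fin r → V → Bool =>
      √r * m ^ 2 / 256 ≤ ∑ i ∈ A, ∑ j ∈ B, σ * S i j ω).card : ℝ) ≤
      NN V ^ r * Real.exp (-(m ^ 2 / 262144)) := by
  classical
  have hrR : (500000 : ℝ) * m ^ 2 ≤ r := by exact_mod_cast hr
  have hr0R : (0 : ℝ) < r := by exact_mod_cast hr0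
  have hsq : √(r : ℝ) ^ 2 = r := Real.sq_sqrt hr0R.le
  have hs0 : 0 < √(r : ℝ) := Real.sqrt_pos.mpr hr0R
  set t : ℝ := √r * m ^ 2 / 256 with ht
  set θ : ℝ := 1 / (512 * √r) with hθ
  have hθ0 : 0 < θ := by positivity
  have hθ2 : θ ^ 2 = 1 / (262144 * r) := by
    rw [hθ, div_pow, mul_pow, hsq]; norm_num
  set F := Finset.univ.filter fun ω : Fin r → V → Bool =>
      t ≤ ∑ i ∈ A, ∑ j ∈ B, σ * S i j ω with hF
  have h1 : (F.card : ℝ) * Real.exp (θ * t) ≤
      ∑ ω : Fin r → V → Bool, Real.exp (∑ i ∈ A, ∑ j ∈ B, (θ * σ) * S i j ω) := by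
    calc (F.card : ℝ) * Real.exp (θ * t) = ∑ ω ∈ F, Real.exp (θ * t) := by
          rw [Finset.sum_const, nsmul_eq_mul]
      _ ≤ ∑ ω ∈ F, Real.exp (∑ i ∈ A, ∑ j ∈ B, (θ * σ) * S i j ω) := by
          refine Finset.sum_le_sum fun ω hω => ?_
          rw [hF, Finset.mem_filter] at hω
          rw [Real.exp_le_exp]
          have h2 : ∑ i ∈ A, ∑ j ∈ B, (θ * σ) * S i j ω =
              θ * ∑ i ∈ A, ∑ j ∈ B, σ * S i j ω := by
            simp only [Finset.mul_sum]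
            refine Finset.sum_congr rfl fun i _ => Finset.sum_congr rfl fun j _ => by ring
          rw [h2]
          exact mul_le_mul_of_nonneg_left hω.2 hθ0.le
      _ ≤ _ := Finset.sum_le_sum_of_subset_of_nonneg (Finset.subset_univ _)
          fun ω _ _ => Real.exp_nonneg _
  have hθσ : (θ * σ) ^ 2 = 1 / (262144 * r) := by rw [mul_pow, hσ, mul_one, hθ2]
  have h3 := exp_S (r := r) hAB (θ * σ) (by
    rw [hA, hB, hθσ]
    have h4 : 1 / (262144 * (r : ℝ)) * m / 2 * m = m ^ 2 / (524288 * r) := by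
      field_simp; ring
    rw [h4, div_le_iff₀ (by positivity)]
    nlinarith)
  rw [hA, hB, hθσ] at h3
  have h5 := h1.trans h3
  have h6 : (r : ℝ) * (1 / (262144 * r) * m * m) = m ^ 2 / 262144 := by field_simp
  have h7 : θ * t = 2 * (m ^ 2 / 262144) := by
    rw [hθ, ht]; field_simp; ring
  rw [h6, h7] at h5
  have h8 : Real.exp (-((m : ℝ) ^ 2 / 262144)) =
      Real.exp (m ^ 2 / 262144) / Real.exp (2 * (m ^ 2 / 262144)) := by
    rw [← Real.exp_sub]; congr 1; ring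
  rw [h8, mul_div_assoc', le_div_iff₀ (Real.exp_pos _)]
  exact h5


/-! ### The event that all inner products between `A` and `B` have the same sign -/

lemma event {A B : Finset V} (hAB : Disjoint A B) (σ : ℝ) (hσ : σ ^ 2 = 1)
    (m : ℕ) (hA : A.card = m) (hB : B.card = m) (hr : 500000 * m ^ 2 ≤ r) (hr0 : 0 < r)
    (F : Finset (Fin r → V → Bool)) (hF : ∀ ω ∈ F, ∀ i ∈ A, ∀ j ∈ B, 0 ≤ σ * S i j ω) :
    (F.card : ℝ) ≤ NN V ^ r * (2 * Real.exp (-(m ^ 2 / 262144))) := by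
  classical
  have hr0R : (0 : ℝ) < r := by exact_mod_cast hr0
  have hs0 : 0 < √(r : ℝ) := Real.sqrt_pos.mpr hr0R
  have hN : 0 < NN V ^ r := pow_pos NN_pos r
  set P := A ×ˢ B with hP
  have hPc : P.card = m ^ 2 := by rw [hP, Finset.card_product, hA, hB, sq]
  set HH := P.powerset.filter (fun H => m ^ 2 ≤ 2 * H.card) with hHH
  let Bad : Finset (V × V) → Finset (Fin r → V → Bool) := fun H =>
    Finset.univ.filter fun ω : Fin r → V → Bool => ∀ p ∈ H, |S p.1 p.2 ω| ≤ √r / 128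
  have habs : |σ| = 1 := by
    have : |σ| ^ 2 = 1 := by rw [sq_abs, hσ]
    nlinarith [abs_nonneg σ]
  have hsub : F ⊆
      (Finset.univ.filter fun ω : Fin r → V → Bool =>
        √r * m ^ 2 / 256 ≤ ∑ i ∈ A, ∑ j ∈ B, σ * S i j ω) ∪ HH.biUnion Bad := by
    intro ω hω
    have hω := hF ω hω
    set H := P.filter (fun p => |S p.1 p.2 ω| ≤ √r / 128) with hH
    rcases Nat.lt_or_ge (2 * H.card) (m ^ 2) with h1 | h1
    · apply Finset.mem_union_left
      rw [Finset.mem_filter]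
      refine ⟨Finset.mem_univ _, ?_⟩
      rw [← Finset.sum_product' A B (fun i j => σ * S i j ω), ← hP]
      have h2 : H.card + (P.filter (fun p => ¬ |S p.1 p.2 ω| ≤ √r / 128)).card = m ^ 2 := by
        rw [← hPc]; exact Finset.card_filter_add_card_filter_not _
      set H' := P.filter (fun p => ¬ |S p.1 p.2 ω| ≤ √r / 128) with hH'
      have h3 : (m : ℝ) ^ 2 ≤ 2 * H'.card := by
        have : m ^ 2 ≤ 2 * H'.card := by omega
        exact_mod_cast this
      have h4 : ∀ p ∈ P, 0 ≤ σ * S p.1 p.2 ω := by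
        intro p hp
        rw [hP, Finset.mem_product] at hp
        exact hω p.1 hp.1 p.2 hp.2
      calc √r * m ^ 2 / 256 ≤ H'.card * (√r / 128) := by
            nlinarith
        _ = ∑ p ∈ H', √r / 128 := by rw [Finset.sum_const, nsmul_eq_mul]
        _ ≤ ∑ p ∈ H', σ * S p.1 p.2 ω := by
            refine Finset.sum_le_sum fun p hp => ?_
            rw [hH', Finset.mem_filter] at hp
            have h5 := h4 p hp.1
            have h6 : |σ * S p.1 p.2 ω| = |S p.1 p.2 ω| := by rw [abs_mul, habs, one_mul]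
            rw [abs_of_nonneg h5] at h6
            rw [h6]
            exact (not_le.mp hp.2).le
        _ ≤ ∑ p ∈ P, σ * S p.1 p.2 ω :=
            Finset.sum_le_sum_of_subset_of_nonneg (Finset.filter_subset _ _)
              fun p hp _ => h4 p hp
    · apply Finset.mem_union_right
      rw [Finset.mem_biUnion]
      refine ⟨H, ?_, ?_⟩
      · rw [hHH, Finset.mem_filter, Finset.mem_powerset]
        exact ⟨Finset.filter_subset _ _, h1⟩
      · simp only [Bad, Finset.mem_filter, Finset.mem_univ, true_and]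
        intro p hp
        exact (Finset.mem_filter.mp hp).2
  have hBad : ∀ H ∈ HH, ((Bad H).card : ℝ) ≤ NN V ^ r * (33 / 100) ^ (m ^ 2) := by
    intro H hH
    rw [hHH, Finset.mem_filter, Finset.mem_powerset] at hH
    refine (small_ball hAB hH.1 m hA hB hr hr0).trans ?_
    apply mul_le_mul_of_nonneg_left _ hN.le
    calc ((5 : ℝ) / 48) ^ H.card ≤ ((33 / 100) ^ 2) ^ H.card := by
          apply pow_le_pow_left₀ (by norm_num); norm_num
      _ = (33 / 100) ^ (2 * H.card) := by rw [pow_mul]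
      _ ≤ (33 / 100) ^ (m ^ 2) := pow_le_pow_of_le_one (by norm_num) (by norm_num) hH.2
  have hHHc : (HH.card : ℝ) ≤ 2 ^ (m ^ 2) := by
    have h1 := Finset.card_filter_le P.powerset (fun H => m ^ 2 ≤ 2 * H.card)
    rw [Finset.card_powerset, hPc] at h1
    exact_mod_cast h1
  have h1 : (((HH.biUnion Bad).card : ℕ) : ℝ) ≤ NN V ^ r * Real.exp (-(m ^ 2 / 262144)) := by
    calc (((HH.biUnion Bad).card : ℕ) : ℝ) ≤ ∑ H ∈ HH, ((Bad H).card : ℝ) := by
          exact_mod_cast Finset.card_biUnion_le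
      _ ≤ ∑ H ∈ HH, NN V ^ r * (33 / 100) ^ (m ^ 2) := Finset.sum_le_sum hBad
      _ = HH.card * (NN V ^ r * (33 / 100) ^ (m ^ 2)) := by rw [Finset.sum_const, nsmul_eq_mul]
      _ ≤ 2 ^ (m ^ 2) * (NN V ^ r * (33 / 100) ^ (m ^ 2)) := by gcongr
      _ = NN V ^ r * (33 / 50) ^ (m ^ 2) := by
          rw [mul_left_comm, ← mul_pow]; norm_num
      _ ≤ NN V ^ r * Real.exp (-(m ^ 2 / 262144)) := by
          apply mul_le_mul_of_nonneg_left _ hN.le
          have h2 : Real.exp (-((m : ℝ) ^ 2 / 262144)) = Real.exp (-(1 / 262144)) ^ (m ^ 2) := by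
            rw [← Real.exp_nat_mul]; congr 1; push_cast; ring
          rw [h2]
          apply pow_le_pow_left₀ (by norm_num)
          have h3 := Real.add_one_le_exp (-(1 / 262144 : ℝ))
          refine le_trans ?_ h3
          norm_num
  have h2 := large_sum (r := r) hAB σ hσ m hA hB hr hr0
  have h3 := Finset.card_le_card hsub
  have h4 := h3.trans (Finset.card_union_le _ _)
  have h5 : (F.card : ℝ) ≤
      ((Finset.univ.filter fun ω : Fin r → V → Bool =>
        √r * m ^ 2 / 256 ≤ ∑ i ∈ A, ∑ j ∈ B, σ * S i j ω).card : ℝ) +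
      ((HH.biUnion Bad).card : ℝ) := by exact_mod_cast h4
  linarith

/-- existence of many sign vectors without large one-sided pairs of sets -/
theorem exists_signs (n m r : ℕ) (hr : 500000 * m ^ 2 ≤ r) (hr0 : 0 < r)
    (h : 4 * (n : ℝ) ^ (2 * m) * Real.exp (-(m ^ 2 / 262144)) < 1) :
    ∃ ω : Fin r → Fin n → Bool, ∀ A B : Finset (Fin n), Disjoint A B → A.card = m → B.card = m →
      ∀ σ : ℝ, σ ^ 2 = 1 → ∃ i ∈ A, ∃ j ∈ B, σ * S i j ω < 0 := by
  classical
  by_contra hcon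
  push Not at hcon
  have hN : 0 < NN (Fin n) ^ r := pow_pos NN_pos r
  set PC := (Finset.univ : Finset (Fin n)).powersetCard m with hPC
  set T := ((PC ×ˢ PC).filter (fun p => Disjoint p.1 p.2)) ×ˢ ({1, -1} : Finset ℝ) with hT
  let Bad : (Finset (Fin n) × Finset (Fin n)) × ℝ → Finset (Fin r → Fin n → Bool) := fun t =>
    Finset.univ.filter fun ω : Fin r → Fin n → Bool => ∀ i ∈ t.1.1, ∀ j ∈ t.1.2, 0 ≤ t.2 * S i j ω
  have hcov : (Finset.univ : Finset (Fin r → Fin n → Bool)) ⊆ T.biUnion Bad := by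
    intro ω _
    obtain ⟨A, B, hAB, hA, hB, σ, hσ, hall⟩ := hcon ω
    rw [Finset.mem_biUnion]
    refine ⟨((A, B), σ), ?_, ?_⟩
    · rw [hT, Finset.mem_product, Finset.mem_filter, Finset.mem_product, hPC,
        Finset.mem_powersetCard, Finset.mem_powersetCard]
      refine ⟨⟨⟨⟨Finset.subset_univ _, hA⟩, ⟨Finset.subset_univ _, hB⟩⟩, hAB⟩, ?_⟩
      have h1 : (σ - 1) * (σ + 1) = 0 := by linarith
      rcases mul_eq_zero.mp h1 with h2 | h2
      · rw [show σ = 1 by linarith]; simp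
      · rw [show σ = -1 by linarith]; simp
    · simp only [Bad, Finset.mem_filter, Finset.mem_univ, true_and]
      exact hall
  have hBad : ∀ t ∈ T, ((Bad t).card : ℝ) ≤
      NN (Fin n) ^ r * (2 * Real.exp (-(m ^ 2 / 262144))) := by
    intro t ht
    rw [hT, Finset.mem_product, Finset.mem_filter, Finset.mem_product, hPC,
      Finset.mem_powersetCard, Finset.mem_powersetCard] at ht
    obtain ⟨⟨⟨⟨_, hA⟩, ⟨_, hB⟩⟩, hAB⟩, hσ⟩ := ht
    have hσ2 : t.2 ^ 2 = 1 := by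
      rw [Finset.mem_insert, Finset.mem_singleton] at hσ
      rcases hσ with h1 | h1 <;> rw [h1] <;> norm_num
    exact event hAB t.2 hσ2 m hA hB hr hr0 (Bad t) fun ω hω => (Finset.mem_filter.mp hω).2
  have hTc : (T.card : ℝ) ≤ (n : ℝ) ^ (2 * m) * 2 := by
    have h1 : T.card ≤ (n.choose m * n.choose m) * 2 := by
      rw [hT, Finset.card_product]
      apply Nat.mul_le_mul
      · refine (Finset.card_filter_le _ _).trans ?_
        rw [Finset.card_product, hPC, Finset.card_powersetCard, Finset.card_univ, Fintype.card_fin]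
      · exact Finset.card_le_two
    have h2 : n.choose m ≤ n ^ m := Nat.choose_le_pow n m
    have h3 : T.card ≤ n ^ (2 * m) * 2 := by
      refine h1.trans (Nat.mul_le_mul_right 2 ?_)
      calc n.choose m * n.choose m ≤ n ^ m * n ^ m := Nat.mul_le_mul h2 h2
        _ = n ^ (2 * m) := by rw [← pow_add]; congr 1; ring
    exact_mod_cast h3
  have hcard : NN (Fin n) ^ r = ((Finset.univ : Finset (Fin r → Fin n → Bool)).card : ℝ) := by
    rw [Finset.card_univ, Fintype.card_fun, Fintype.card_fun, Fintype.card_bool, Fintype.card_fin,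
      Fintype.card_fin]
    unfold NN
    rw [Fintype.card_fin]
    push_cast; rfl
  have h1 : NN (Fin n) ^ r ≤ NN (Fin n) ^ r *
      (4 * (n : ℝ) ^ (2 * m) * Real.exp (-(m ^ 2 / 262144))) := by
    calc NN (Fin n) ^ r = ((Finset.univ : Finset (Fin r → Fin n → Bool)).card : ℝ) := hcard
      _ ≤ ((T.biUnion Bad).card : ℝ) := by exact_mod_cast Finset.card_le_card hcov
      _ ≤ ∑ t ∈ T, ((Bad t).card : ℝ) := by exact_mod_cast Finset.card_biUnion_le
      _ ≤ ∑ t ∈ T, NN (Fin n) ^ r * (2 * Real.exp (-(m ^ 2 / 262144))) := Finset.sum_le_sum hBad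
      _ = T.card * (NN (Fin n) ^ r * (2 * Real.exp (-(m ^ 2 / 262144)))) := by
          rw [Finset.sum_const, nsmul_eq_mul]
      _ ≤ ((n : ℝ) ^ (2 * m) * 2) * (NN (Fin n) ^ r * (2 * Real.exp (-(m ^ 2 / 262144)))) := by
          gcongr
      _ = _ := by ring
  have h2 : NN (Fin n) ^ r * (4 * (n : ℝ) ^ (2 * m) * Real.exp (-(m ^ 2 / 262144))) <
      NN (Fin n) ^ r * 1 := mul_lt_mul_of_pos_left h hN
  linarith

end Run7.h571.RD
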