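import Pool.Agent.Run7.h571.RD.UpNum
import Pool.Agent.Run7.h571.RD.Low

/-!
# Ramsey numbers of distance colourings: basic properties

Helper file for `MP_28724c_co.DistanceColourings`.
-/

namespace Run7.h571.RD

/-- The points `x i`, `i ∈ S`, are homogeneous for the distance colouring: either all mutual
distances are at most one, or all mutual distances are larger than one. -/
def Homog {ι E : Type} [PseudoMetricSpace E] (x : ι → E) (S : Finset ι) : Prop :=
  (∀ i ∈ S, ∀ j ∈ S, i ≠ j → dist (x i) (x j) ≤ 1) ∨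
    (∀ i ∈ S, ∀ j ∈ S, i ≠ j → 1 < dist (x i) (x j))

/-- Any `n` points of `ℝ ^ r` contain `k` that are homogeneous. -/
def Good (r k n : ℕ) : Prop :=
  ∀ x : Fin n → EuclideanSpace ℝ (Fin r), ∃ S : Finset (Fin n), S.card = k ∧ Homog x S

/-- The diagonal Ramsey number of the distance colourings in dimension `r`: the least `n` such that
any `n` points of `ℝ ^ r` contain `k` points whose mutual distances are all at most one or all
larger than one. -/
noncomputable def distRamsey (r k : ℕ) : ℕ := sInf {n : ℕ | Good r k n}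

/-- The diagonal Ramsey number `R(k, k)`. -/
noncomputable def ramsey (k : ℕ) : ℕ :=
  sInf {n : ℕ | ∀ G : SimpleGraph (Fin n), ∃ S : Finset (Fin n),
    G.IsNClique k S ∨ Gᶜ.IsNClique k S}

/-- the graph of the pairs at distance at most one -/
def dgraph {ι E : Type} [PseudoMetricSpace E] (x : ι → E) : SimpleGraph ι where
  Adj i j := i ≠ j ∧ dist (x i) (x j) ≤ 1
  symm := ⟨fun i j h => ⟨h.1.symm, by rw [dist_comm]; exact h.2⟩⟩
  loopless := ⟨fun i h => h.1 rfl⟩

lemma homog_iff {n k : ℕ} {E : Type} [PseudoMetricSpace E] (x : Fin n → E) (S : Finset (Fin n)) :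
    (S.card = k ∧ Homog x S) ↔ ((dgraph x).IsNClique k S ∨ (dgraph x)ᶜ.IsNClique k S) := by
  have h1 : ((dgraph x).IsClique S) ↔ (∀ i ∈ S, ∀ j ∈ S, i ≠ j → dist (x i) (x j) ≤ 1) := by
    constructor
    · intro h i hi j hj hij
      exact (h hi hj hij).2
    · intro h i hi j hj hij
      exact ⟨hij, h i hi j hj hij⟩
  have h2 : ((dgraph x)ᶜ.IsClique S) ↔ (∀ i ∈ S, ∀ j ∈ S, i ≠ j → 1 < dist (x i) (x j)) := by
    constructor
    · intro h i hi j hj hij
      have h3 := h hi hj hij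
      rw [SimpleGraph.compl_adj] at h3
      by_contra h4
      exact h3.2 ⟨hij, not_lt.mp h4⟩
    · intro h i hi j hj hij
      rw [SimpleGraph.compl_adj]
      exact ⟨hij, fun h3 => absurd h3.2 (not_le.mpr (h i hi j hj hij))⟩
  rw [SimpleGraph.isNClique_iff, SimpleGraph.isNClique_iff, h1, h2, Homog]
  tauto

lemma ramsey_exists (k : ℕ) : ∃ n, ∀ G : SimpleGraph (Fin n), ∃ S : Finset (Fin n),
    G.IsNClique k S ∨ Gᶜ.IsNClique k S := by
  refine ⟨(k + k).choose k, fun G => ?_⟩
  rcases Pool.Agent.H599R2.Ram.es G (k + k) k k rfl Finset.univ (by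
    rw [Finset.card_univ, Fintype.card_fin]) with ⟨S, _, hS⟩ | ⟨S, _, hS⟩
  · obtain ⟨T, hTS, hT⟩ := Finset.exists_subset_card_eq (show k ≤ S.card by rw [hS.card_eq]; omega)
    exact ⟨T, Or.inl ⟨hS.isClique.subset (by exact_mod_cast hTS), hT⟩⟩
  · obtain ⟨T, hTS, hT⟩ := Finset.exists_subset_card_eq (show k ≤ S.card by rw [hS.card_eq]; omega)
    refine ⟨T, Or.inr ⟨?_, hT⟩⟩
    intro i hi j hj hij
    rw [SimpleGraph.compl_adj]
    exact ⟨hij, hS.isIndepSet (hTS hi) (hTS hj) hij⟩

lemma good_of_ramsey {r k n : ℕ} (h : ∀ G : SimpleGraph (Fin n), ∃ S : Finset (Fin n),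
    G.IsNClique k S ∨ Gᶜ.IsNClique k S) : Good r k n := by
  intro x
  obtain ⟨S, hS⟩ := h (dgraph x)
  exact ⟨S, (homog_iff x S).mpr hS⟩

lemma good_mono_n {r k n n' : ℕ} (h : Good r k n) (hn : n ≤ n') : Good r k n' := by
  intro x
  obtain ⟨S, hS, hH⟩ := h (fun i => x (Fin.castLE hn i))
  refine ⟨S.map (Fin.castLEEmb hn), by rw [Finset.card_map, hS], ?_⟩
  rcases hH with hH | hH
  · left
    intro i hi j hj hij
    obtain ⟨a, ha, rfl⟩ := Finset.mem_map.mp hi
    obtain ⟨b, hb, rfl⟩ := Finset.mem_map.mp hj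
    exact hH a ha b hb (fun h => hij (by rw [h]))
  · right
    intro i hi j hj hij
    obtain ⟨a, ha, rfl⟩ := Finset.mem_map.mp hi
    obtain ⟨b, hb, rfl⟩ := Finset.mem_map.mp hj
    exact hH a ha b hb (fun h => hij (by rw [h]))

lemma good_mono_k {r k k' n : ℕ} (h : Good r k' n) (hk : k ≤ k') : Good r k n := by
  intro x
  obtain ⟨S, hS, hH⟩ := h x
  obtain ⟨T, hTS, hT⟩ := Finset.exists_subset_card_eq (show k ≤ S.card by omega)
  refine ⟨T, hT, ?_⟩
  rcases hH with hH | hH
  · exact Or.inl fun i hi j hj hij => hH i (hTS hi) j (hTS hj) hij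
  · exact Or.inr fun i hi j hj hij => hH i (hTS hi) j (hTS hj) hij

/-- padding with zeros -/
noncomputable def pad {r r' : ℕ} (x : EuclideanSpace ℝ (Fin r)) : EuclideanSpace ℝ (Fin r') :=
  WithLp.toLp 2 fun i => if h : (i : ℕ) < r then x ⟨i, h⟩ else 0

lemma dist_pad {r r' : ℕ} (h : r ≤ r') (x y : EuclideanSpace ℝ (Fin r)) :
    dist (pad x : EuclideanSpace ℝ (Fin r')) (pad y) = dist x y := by
  rw [EuclideanSpace.dist_eq, EuclideanSpace.dist_eq]
  congr 1
  have h1 : ∑ i : Fin r', dist ((pad x : EuclideanSpace ℝ (Fin r')) i) ((pad y : EuclideanSpace ℝ (Fin r')) i) ^ 2 =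
      ∑ i ∈ Finset.univ.map (Fin.castLEEmb h),
        dist ((pad x : EuclideanSpace ℝ (Fin r')) i) ((pad y : EuclideanSpace ℝ (Fin r')) i) ^ 2 := by
    symm
    apply Finset.sum_subset (Finset.subset_univ _)
    intro i _ hi
    have h2 : ¬ (i : ℕ) < r := by
      intro h3
      apply hi
      rw [Finset.mem_map]
      exact ⟨⟨i, h3⟩, Finset.mem_univ _, Fin.ext rfl⟩
    simp [pad, h2]
  rw [h1, Finset.sum_map]
  refine Finset.sum_congr rfl fun i _ => ?_
  simp [pad]

lemma good_mono_r {r r' k n : ℕ} (h : Good r' k n) (hr : r ≤ r') : Good r k n := by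
  intro x
  obtain ⟨S, hS, hH⟩ := h (fun i => pad (x i))
  refine ⟨S, hS, ?_⟩
  unfold Homog at hH ⊢
  simpa only [dist_pad hr] using hH

lemma good_nonempty (r k : ℕ) : {n : ℕ | Good r k n}.Nonempty := by
  obtain ⟨n, hn⟩ := ramsey_exists k
  exact ⟨n, good_of_ramsey hn⟩

lemma good_distRamsey (r k : ℕ) : Good r k (distRamsey r k) := Nat.sInf_mem (good_nonempty r k)

lemma good_iff (r k n : ℕ) : Good r k n ↔ distRamsey r k ≤ n :=
  ⟨fun h => Nat.sInf_le h, fun h => good_mono_n (good_distRamsey r k) h⟩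

lemma distRamsey_mono_r {r r' : ℕ} (k : ℕ) (h : r ≤ r') : distRamsey r k ≤ distRamsey r' k :=
  (good_iff r k _).mp (good_mono_r (good_distRamsey r' k) h)

lemma distRamsey_mono_k (r : ℕ) {k k' : ℕ} (h : k ≤ k') : distRamsey r k ≤ distRamsey r k' :=
  (good_iff r k _).mp (good_mono_k (good_distRamsey r k') h)

lemma le_distRamsey (r k : ℕ) : k ≤ distRamsey r k := by
  obtain ⟨S, hS, _⟩ := good_distRamsey r k (fun _ => 0)
  calc k = S.card := hS.symm
    _ ≤ Fintype.card (Fin (distRamsey r k)) := Finset.card_le_univ S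
    _ = distRamsey r k := Fintype.card_fin _

lemma distRamsey_le_ramsey (r k : ℕ) : distRamsey r k ≤ ramsey k :=
  (good_iff r k _).mp (good_of_ramsey (Nat.sInf_mem (ramsey_exists k)))

/-! ### Every graph is a distance graph in high dimension -/

/-- the points that represent a graph -/
noncomputable def rep {n : ℕ} (a : Fin n → Fin n → ℝ) (i : Fin n) : EuclideanSpace ℝ (Fin n) :=
  WithLp.toLp 2 fun l => if l = i then 1 / √2 else 1 / √2 * (1 / (2 * n) * a i l)

lemma dist_rep {n : ℕ} (a : Fin n → Fin n → ℝ) (hsym : ∀ i j, a i j = a j i)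
    (ha : ∀ i j, a i j = 1 ∨ a i j = -1) (i j : Fin n) (hij : i ≠ j) :
    dist (rep a i) (rep a j) ≤ 1 ↔ a i j = 1 := by
  classical
  have hn0 : 0 < n := Fin.pos i
  have hn : (0 : ℝ) < n := by exact_mod_cast hn0
  set δ : ℝ := 1 / (2 * n) with hδ
  have hδ0 : 0 < δ := by positivity
  have hδn : δ * (2 * n) = 1 := by rw [hδ]; field_simp
  have hs : (1 / √(2 : ℝ)) ^ 2 = 1 / 2 := by rw [div_pow, Real.sq_sqrt (by norm_num)]; norm_num
  have ha2 : ∀ i j, a i j ^ 2 = 1 := by
    intro i j; rcases ha i j with h | h <;> rw [h] <;> norm_num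
  have hd : dist (rep a i) (rep a j) ^ 2 =
      ∑ l, 1 / 2 * ((if l = i then 1 else δ * a i l) - (if l = j then 1 else δ * a j l)) ^ 2 := by
    rw [EuclideanSpace.dist_eq, Real.sq_sqrt (Finset.sum_nonneg fun _ _ => by positivity)]
    refine Finset.sum_congr rfl fun l _ => ?_
    rw [Real.dist_eq, sq_abs, ← hs, ← mul_pow]
    congr 1
    simp only [rep]
    split_ifs <;> ring
  have hsplit : ∑ l, 1 / 2 * ((if l = i then 1 else δ * a i l) -
      (if l = j then 1 else δ * a j l)) ^ 2 =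
      (1 - δ * a i j) ^ 2 +
      ∑ l ∈ (Finset.univ.erase i).erase j, 1 / 2 * (δ * a i l - δ * a j l) ^ 2 := by
    rw [← Finset.add_sum_erase Finset.univ _ (Finset.mem_univ i),
      ← Finset.add_sum_erase (Finset.univ.erase i) _
        (Finset.mem_erase.mpr ⟨hij.symm, Finset.mem_univ j⟩)]
    have h1 : ∑ l ∈ (Finset.univ.erase i).erase j, 1 / 2 * ((if l = i then 1 else δ * a i l) -
        (if l = j then 1 else δ * a j l)) ^ 2 =
        ∑ l ∈ (Finset.univ.erase i).erase j, 1 / 2 * (δ * a i l - δ * a j l) ^ 2 := by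
      refine Finset.sum_congr rfl fun l hl => ?_
      rw [Finset.mem_erase, Finset.mem_erase] at hl
      rw [if_neg hl.2.1, if_neg hl.1]
    rw [h1]
    simp only [if_true, hij, hij.symm, if_false]
    rw [hsym j i]
    ring
  have hrest0 : 0 ≤ ∑ l ∈ (Finset.univ.erase i).erase j, 1 / 2 * (δ * a i l - δ * a j l) ^ 2 :=
    Finset.sum_nonneg fun _ _ => by positivity
  have hrest : ∑ l ∈ (Finset.univ.erase i).erase j, 1 / 2 * (δ * a i l - δ * a j l) ^ 2 ≤ δ := by
    have h1 : ∀ l ∈ (Finset.univ.erase i).erase j, 1 / 2 * (δ * a i l - δ * a j l) ^ 2 ≤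
        2 * δ ^ 2 := by
      intro l _
      have h2 := ha2 i l
      have h3 := ha2 j l
      have h4 : 0 ≤ δ ^ 2 * (a i l + a j l) ^ 2 := by positivity
      nlinarith
    refine (Finset.sum_le_sum h1).trans ?_
    rw [Finset.sum_const, nsmul_eq_mul]
    have h5 : (((Finset.univ.erase i).erase j).card : ℝ) ≤ n := by
      have h6 : ((Finset.univ.erase i).erase j).card ≤ n := by
        refine (Finset.card_erase_le).trans (Finset.card_erase_le.trans ?_)
        rw [Finset.card_univ, Fintype.card_fin]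
      exact_mod_cast h6
    calc (((Finset.univ.erase i).erase j).card : ℝ) * (2 * δ ^ 2) ≤ n * (2 * δ ^ 2) := by gcongr
      _ = δ := by rw [show (n : ℝ) * (2 * δ ^ 2) = δ * (δ * (2 * n)) by ring, hδn, mul_one]
  have hδ1 : δ ≤ 1 / 2 := by
    have : (1 : ℝ) ≤ n := by exact_mod_cast hn0
    nlinarith
  have hd0 : 0 ≤ dist (rep a i) (rep a j) := dist_nonneg
  rw [hsplit] at hd
  constructor
  · intro h
    rcases ha i j with h1 | h1
    · exact h1
    · exfalso
      rw [h1] at hd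
      have h2 : dist (rep a i) (rep a j) ^ 2 ≤ 1 := by nlinarith
      nlinarith
  · intro h
    rw [h] at hd
    have h2 : dist (rep a i) (rep a j) ^ 2 ≤ 1 := by nlinarith
    nlinarith

lemma ramsey_le (r k : ℕ) (h : ramsey k ≤ r + 1) : ramsey k ≤ distRamsey r k := by
  classical
  by_contra hcon
  push Not at hcon
  -- a graph on `ramsey k - 1` vertices without homogeneous sets
  obtain ⟨n, hn⟩ : ∃ n, ramsey k = n + 1 := ⟨ramsey k - 1, by omega⟩
  have h1 : ¬ ∀ G : SimpleGraph (Fin n), ∃ S : Finset (Fin n),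
      G.IsNClique k S ∨ Gᶜ.IsNClique k S := by
    intro h2
    have h3 : ramsey k ≤ n := Nat.sInf_le h2
    omega
  push Not at h1
  obtain ⟨G, hG⟩ := h1
  have hgood : Good n k n := by
    have h2 : distRamsey r k ≤ n := by omega
    exact good_mono_r ((good_iff r k n).mpr h2) (by omega)
  let a : Fin n → Fin n → ℝ := fun i j => if G.Adj i j then 1 else -1
  obtain ⟨S, hS⟩ := hgood (rep a)
  have hadj : ∀ i j, i ≠ j → (dist (rep a i) (rep a j) ≤ 1 ↔ G.Adj i j) := by
    intro i j hij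
    rw [dist_rep a (by intro i j; simp only [a, G.adj_comm]) (by
      intro i j; simp only [a]; split_ifs <;> simp) i j hij]
    simp only [a]
    split_ifs with h3
    · simp [h3]
    · simp only [h3, iff_false]; norm_num
  rcases hS with ⟨hc, hH | hH⟩
  · refine (hG S).1 ⟨?_, hc⟩
    intro i hi j hj hij
    exact (hadj i j hij).mp (hH i hi j hj hij)
  · refine (hG S).2 ⟨?_, hc⟩
    intro i hi j hj hij
    rw [SimpleGraph.compl_adj]
    exact ⟨hij, fun h3 => absurd ((hadj i j hij).mpr h3) (not_le.mpr (hH i hi j hj hij))⟩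

lemma distRamsey_eq (r k : ℕ) (h : ramsey k ≤ r + 1) : distRamsey r k = ramsey k :=
  le_antisymm (distRamsey_le_ramsey r k) (ramsey_le r k h)

end Run7.h571.RD
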