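import Mathlib

/-!
# A cap of a ball that contains many of finitely many given points

Helper file for `MP_28724c_co.DistanceColourings`.
-/

open MeasureTheory Metric Set
open scoped InnerProductSpace RealInnerProductSpace Pointwise

namespace Run7.h571.RD

variable {r : ℕ}

lemma moment_eq (e f : EuclideanSpace ℝ (Fin r)) (he : ‖e‖ = 1) (hf : ‖f‖ = 1) :
    ∫ v in closedBall (0 : EuclideanSpace ℝ (Fin r)) 1, ⟪e, v⟫_ℝ ^ 2 =
      ∫ v in closedBall (0 : EuclideanSpace ℝ (Fin r)) 1, ⟪f, v⟫_ℝ ^ 2 := by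
  let R : (EuclideanSpace ℝ (Fin r)) ≃ₗᵢ[ℝ] (EuclideanSpace ℝ (Fin r)) :=
    (ℝ ∙ (e - f))ᗮ.reflection
  have hR : R e = f := Submodule.reflection_sub (by rw [he, hf])
  have hmp : MeasurePreserving R volume volume := R.measurePreserving
  have hb : R ⁻¹' (closedBall (0 : EuclideanSpace ℝ (Fin r)) 1) = closedBall 0 1 := by
    ext v; simp
  have := hmp.setIntegral_preimage_emb R.toHomeomorph.measurableEmbedding
    (fun v => ⟪f, v⟫_ℝ ^ 2) (closedBall 0 1)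
  rw [hb] at this
  rw [← this]
  refine integral_congr_ae (ae_of_all _ fun v => ?_)
  simp only
  rw [← hR, R.inner_map_map]

lemma integrableOn_sq (e : EuclideanSpace ℝ (Fin r)) :
    IntegrableOn (fun v => ⟪e, v⟫_ℝ ^ 2) (closedBall (0 : EuclideanSpace ℝ (Fin r)) 1) :=
  (Continuous.continuousOn (by fun_prop)).integrableOn_compact (isCompact_closedBall 0 1)

lemma moment_le (e : EuclideanSpace ℝ (Fin r)) (he : ‖e‖ = 1) :
    r * ∫ v in closedBall (0 : EuclideanSpace ℝ (Fin r)) 1, ⟪e, v⟫_ℝ ^ 2 ≤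
      volume.real (closedBall (0 : EuclideanSpace ℝ (Fin r)) 1) := by
  set B := closedBall (0 : EuclideanSpace ℝ (Fin r)) 1 with hB
  have h1 : ∀ j : Fin r, ∫ v in B, ⟪e, v⟫_ℝ ^ 2 =
      ∫ v in B, ⟪(EuclideanSpace.single j (1 : ℝ)), v⟫_ℝ ^ 2 := by
    intro j
    exact moment_eq e _ he (by simp)
  have h2 : (r : ℝ) * ∫ v in B, ⟪e, v⟫_ℝ ^ 2 =
      ∑ j : Fin r, ∫ v in B, ⟪(EuclideanSpace.single j (1 : ℝ)), v⟫_ℝ ^ 2 := by
    rw [← Finset.sum_congr rfl (fun j _ => h1 j)]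
    simp
  rw [h2, ← integral_finsetSum _ (fun j _ => integrableOn_sq _)]
  have h3 : ∀ v ∈ B, ‖∑ j : Fin r, ⟪(EuclideanSpace.single j (1 : ℝ)), v⟫_ℝ ^ 2‖ ≤ 1 := by
    intro v hv
    have h4 : ∑ j : Fin r, ⟪(EuclideanSpace.single j (1 : ℝ)), v⟫_ℝ ^ 2 = ‖v‖ ^ 2 := by
      rw [EuclideanSpace.norm_sq_eq]
      refine Finset.sum_congr rfl fun j _ => ?_
      rw [EuclideanSpace.inner_single_left]
      simp
    rw [h4]
    have h5 : ‖v‖ ≤ 1 := by simpa [hB] using hv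
    rw [Real.norm_of_nonneg (by positivity)]
    nlinarith [norm_nonneg v]
  have h6 := norm_setIntegral_le_of_norm_le_const (μ := volume) (s := B) (C := 1)
    (isCompact_closedBall _ _).measure_lt_top h3
  rw [one_mul] at h6
  exact (le_abs_self _).trans h6

lemma slab (e : EuclideanSpace ℝ (Fin r)) (he : ‖e‖ = 1) (ρ : ℝ) (hρ : 0 < ρ)
    (h4 : 4 ≤ r * ρ ^ 2) :
    3 / 8 * volume.real (closedBall (0 : EuclideanSpace ℝ (Fin r)) 1) ≤
      volume.real {v ∈ closedBall (0 : EuclideanSpace ℝ (Fin r)) 1 |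
        -ρ ≤ ⟪e, v⟫_ℝ ∧ ⟪e, v⟫_ℝ ≤ 0} := by
  set B := closedBall (0 : EuclideanSpace ℝ (Fin r)) 1 with hB
  have hBfin : volume B ≠ ⊤ := (isCompact_closedBall _ _).measure_lt_top.ne
  set S1 := {v ∈ B | -ρ ≤ ⟪e, v⟫_ℝ ∧ ⟪e, v⟫_ℝ ≤ 0} with hS1
  set S2 := {v ∈ B | 0 ≤ ⟪e, v⟫_ℝ ∧ ⟪e, v⟫_ℝ ≤ ρ} with hS2
  set T := {v ∈ B | ρ ^ 2 ≤ ⟪e, v⟫_ℝ ^ 2} with hT
  have hcov : B ⊆ S1 ∪ S2 ∪ T := by
    intro v hv
    by_cases h1 : ρ ^ 2 ≤ ⟪e, v⟫_ℝ ^ 2
    · exact Or.inr ⟨hv, h1⟩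
    · push Not at h1
      have h2 := abs_lt_of_sq_lt_sq h1 hρ.le
      rw [abs_lt] at h2
      rcases le_total 0 (⟪e, v⟫_ℝ) with h3 | h3
      · exact Or.inl (Or.inr ⟨hv, h3, h2.2.le⟩)
      · exact Or.inl (Or.inl ⟨hv, h2.1.le, h3⟩)
  have hS12 : volume.real S2 = volume.real S1 := by
    have h1 : S2 = (fun v => -v) ⁻¹' S1 := by
      ext v
      simp only [hS1, hS2, hB, mem_ofPred_eq, mem_preimage, mem_closedBall, dist_zero_right,
        norm_neg, inner_neg_right]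
      constructor
      · rintro ⟨a, b, c⟩; exact ⟨a, by linarith, by linarith⟩
      · rintro ⟨a, b, c⟩; exact ⟨a, by linarith, by linarith⟩
    rw [h1, measureReal_def, measureReal_def, Measure.measure_preimage_neg]
  have hTle : ρ ^ 2 * volume.real T ≤ ∫ v in B, ⟪e, v⟫_ℝ ^ 2 := by
    have h1 := mul_meas_ge_le_integral_of_nonneg (μ := volume.restrict B)
      (f := fun v => ⟪e, v⟫_ℝ ^ 2) (ae_of_all _ fun v => by positivity) (integrableOn_sq e) (ρ ^ 2)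
    have h2 : (volume.restrict B).real {x | ρ ^ 2 ≤ ⟪e, x⟫_ℝ ^ 2} = volume.real T := by
      have hm : MeasurableSet {x : EuclideanSpace ℝ (Fin r) | ρ ^ 2 ≤ ⟪e, x⟫_ℝ ^ 2} :=
        (isClosed_le (by fun_prop) (by fun_prop)).measurableSet
      rw [measureReal_restrict_apply hm]
      congr 1
      ext v; simp [hT, and_comm]
    rwa [h2] at h1
  have hm := moment_le e he
  rw [← hB] at hm
  have hTle' : 4 * volume.real T ≤ volume.real B := by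
    have h1 : (r : ℝ) * (ρ ^ 2 * volume.real T) ≤ volume.real B :=
      (mul_le_mul_of_nonneg_left hTle (Nat.cast_nonneg r)).trans hm
    have h2 : (0 : ℝ) ≤ volume.real T := measureReal_nonneg
    nlinarith
  have h5 : volume.real B ≤ volume.real S1 + volume.real S2 + volume.real T := by
    calc volume.real B ≤ volume.real (S1 ∪ S2 ∪ T) :=
          measureReal_mono hcov (measure_union_lt_top (measure_union_lt_top
            (lt_of_le_of_lt (measure_mono (sep_subset _ _)) hBfin.lt_top)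
            (lt_of_le_of_lt (measure_mono (sep_subset _ _)) hBfin.lt_top))
            (lt_of_le_of_lt (measure_mono (sep_subset _ _)) hBfin.lt_top)).ne
      _ ≤ volume.real (S1 ∪ S2) + volume.real T := measureReal_union_le _ _
      _ ≤ _ := by gcongr; exact measureReal_union_le _ _
  rw [hS12] at h5
  linarith


/-- The cap of the unit ball around `e` of height `ρ` is not too small. -/
lemma cap (e : EuclideanSpace ℝ (Fin r)) (he : ‖e‖ = 1) (ρ : ℝ) (hρ : 0 < ρ)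
    (hρ2 : 4 * ρ ^ 2 < 1) (h4 : 4 ≤ r * ρ ^ 2) :
    3 / 8 * (√(1 - 4 * ρ ^ 2)) ^ r * volume.real (closedBall (0 : EuclideanSpace ℝ (Fin r)) 1) ≤
      volume.real {w ∈ closedBall (0 : EuclideanSpace ℝ (Fin r)) 1 | ρ ≤ ⟪e, w⟫_ℝ} := by
  set B := closedBall (0 : EuclideanSpace ℝ (Fin r)) 1 with hB
  have hBfin : volume B ≠ ⊤ := (isCompact_closedBall _ _).measure_lt_top.ne
  set S0 := {v ∈ B | -ρ ≤ ⟪e, v⟫_ℝ ∧ ⟪e, v⟫_ℝ ≤ 0} with hS0
  set G := {w ∈ B | ρ ≤ ⟪e, w⟫_ℝ} with hG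
  set s := √(1 - 4 * ρ ^ 2) with hs
  have hs0 : 0 < s := Real.sqrt_pos.mpr (by linarith)
  have hs2 : s ^ 2 = 1 - 4 * ρ ^ 2 := Real.sq_sqrt (by linarith)
  have hs1 : s ≤ 1 := by nlinarith [sq_nonneg ρ]
  have hsub : (2 * ρ) • e +ᵥ (s • S0) ⊆ G := by
    rintro _ ⟨_, ⟨v, ⟨hv1, hv2, hv3⟩, rfl⟩, rfl⟩
    have hv1' : ‖v‖ ≤ 1 := by simpa [hB] using hv1
    have hee : ⟪e, e⟫_ℝ = 1 := by rw [real_inner_self_eq_norm_sq, he]; norm_num
    refine ⟨?_, ?_⟩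
    · simp only [hB, mem_closedBall, dist_zero_right]
      have h1 : ‖(2 * ρ) • e + s • v‖ ^ 2 ≤ 1 := by
        rw [norm_add_sq_real, norm_smul, norm_smul, inner_smul_left, inner_smul_right, he]
        simp only [Real.norm_eq_abs, mul_pow, sq_abs, conj_trivial]
        have h2 : ‖v‖ ^ 2 ≤ 1 := by nlinarith [norm_nonneg v]
        have h3 : 2 * (2 * ρ * (s * ⟪e, v⟫_ℝ)) ≤ 0 := by
          have : 0 < ρ * s := by positivity
          nlinarith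
        have h4 : s ^ 2 * ‖v‖ ^ 2 ≤ s ^ 2 := by nlinarith [sq_nonneg s]
        nlinarith
      have h5 : (0 : ℝ) ≤ ‖(2 * ρ) • e + s • v‖ := norm_nonneg _
      show ‖(2 * ρ) • e + s • v‖ ≤ 1
      nlinarith
    · show ρ ≤ ⟪e, (2 * ρ) • e + s • v⟫_ℝ
      rw [inner_add_right, inner_smul_right, inner_smul_right, hee]
      nlinarith
  have hvol : volume.real ((2 * ρ) • e +ᵥ (s • S0)) = s ^ r * volume.real S0 := by
    rw [measureReal_def, measure_vadd, Measure.addHaar_smul, finrank_euclideanSpace_fin,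
      ENNReal.toReal_mul, ENNReal.toReal_ofReal (abs_nonneg _), abs_of_nonneg (by positivity),
      measureReal_def]
  have hsl := slab e he ρ hρ h4
  rw [← hB, ← hS0] at hsl
  calc 3 / 8 * s ^ r * volume.real B = s ^ r * (3 / 8 * volume.real B) := by ring
    _ ≤ s ^ r * volume.real S0 := by gcongr
    _ = volume.real ((2 * ρ) • e +ᵥ (s • S0)) := hvol.symm
    _ ≤ volume.real G := measureReal_mono hsub
        (lt_of_le_of_lt (measure_mono (sep_subset _ _)) hBfin.lt_top).ne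

/-- the lower bound for the proportion of a cap -/
noncomputable def kap (r : ℕ) (ρ : ℝ) : ℝ := 3 / 8 * (√(1 - 4 * ρ ^ 2)) ^ r

lemma kap_nonneg (r : ℕ) (ρ : ℝ) : 0 ≤ kap r ρ := by unfold kap; positivity

lemma kap_le (r : ℕ) (ρ : ℝ) : kap r ρ ≤ 1 := by
  unfold kap
  have h1 : √(1 - 4 * ρ ^ 2) ≤ 1 := by
    rw [Real.sqrt_le_one]
    nlinarith [sq_nonneg ρ]
  have h2 : (√(1 - 4 * ρ ^ 2)) ^ r ≤ 1 := pow_le_one₀ (Real.sqrt_nonneg _) h1
  linarith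

lemma cap' (x : EuclideanSpace ℝ (Fin r)) (ρ : ℝ) (hρ : 0 < ρ)
    (hρ2 : 4 * ρ ^ 2 < 1) (h4 : 4 ≤ r * ρ ^ 2) :
    kap r ρ * volume.real (closedBall (0 : EuclideanSpace ℝ (Fin r)) 1) ≤
      volume.real {w ∈ closedBall (0 : EuclideanSpace ℝ (Fin r)) 1 | ρ * ‖x‖ ≤ ⟪x, w⟫_ℝ} := by
  rcases eq_or_ne x 0 with rfl | hx
  · have h1 : {w ∈ closedBall (0 : EuclideanSpace ℝ (Fin r)) 1 |
        ρ * ‖(0 : EuclideanSpace ℝ (Fin r))‖ ≤ ⟪(0 : EuclideanSpace ℝ (Fin r)), w⟫_ℝ} =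
        closedBall (0 : EuclideanSpace ℝ (Fin r)) 1 := by
      ext w; simp
    rw [h1]
    exact mul_le_of_le_one_left measureReal_nonneg (kap_le r ρ)
  · have hx0 : 0 < ‖x‖ := norm_pos_iff.mpr hx
    have h1 := cap (‖x‖⁻¹ • x) (by rw [norm_smul, norm_inv, norm_norm, inv_mul_cancel₀ hx0.ne'])
      ρ hρ hρ2 h4
    have h2 : {w ∈ closedBall (0 : EuclideanSpace ℝ (Fin r)) 1 | ρ ≤ ⟪‖x‖⁻¹ • x, w⟫_ℝ} =
        {w ∈ closedBall (0 : EuclideanSpace ℝ (Fin r)) 1 | ρ * ‖x‖ ≤ ⟪x, w⟫_ℝ} := by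
      ext w
      simp only [mem_ofPred_eq]
      rw [real_inner_smul_left, inv_mul_eq_div, le_div_iff₀ hx0]
    rw [h2] at h1
    exact h1

/-- Among finitely many vectors a proportion `kap r ρ` lies in the cap around some direction. -/
lemma exists_cap {ι : Type*} (Y : Finset ι) (x : ι → EuclideanSpace ℝ (Fin r)) (ρ : ℝ)
    (hρ : 0 < ρ) (hρ2 : 4 * ρ ^ 2 < 1) (h4 : 4 ≤ r * ρ ^ 2) :
    ∃ w : EuclideanSpace ℝ (Fin r), ‖w‖ ≤ 1 ∧
      kap r ρ * Y.card ≤ ((Y.filter fun i => ρ * ‖x i‖ ≤ ⟪x i, w⟫_ℝ).card : ℝ) := by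
  classical
  set B := closedBall (0 : EuclideanSpace ℝ (Fin r)) 1 with hB
  have hBfin : volume B ≠ ⊤ := (isCompact_closedBall _ _).measure_lt_top.ne
  have hB0 : volume B ≠ 0 := (measure_closedBall_pos volume 0 one_pos).ne'
  have hBpos : 0 < volume.real B := ENNReal.toReal_pos hB0 hBfin
  have hmeas : ∀ i, MeasurableSet {w : EuclideanSpace ℝ (Fin r) | ρ * ‖x i‖ ≤ ⟪x i, w⟫_ℝ} :=
    fun i => (isClosed_le (by fun_prop) (by fun_prop)).measurableSet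
  let f : EuclideanSpace ℝ (Fin r) → ℝ := fun w =>
    ∑ i ∈ Y, indicator {w : EuclideanSpace ℝ (Fin r) | ρ * ‖x i‖ ≤ ⟪x i, w⟫_ℝ} (fun _ => (1 : ℝ)) w
  have hint : ∀ i ∈ Y, IntegrableOn
      (indicator {w : EuclideanSpace ℝ (Fin r) | ρ * ‖x i‖ ≤ ⟪x i, w⟫_ℝ} (fun _ => (1 : ℝ))) B := by
    intro i _
    exact (integrableOn_const hBfin).indicator (hmeas i)
  have hf : IntegrableOn f B := integrable_finsetSum _ hint
  obtain ⟨w, hw, hle⟩ := exists_setAverage_le hB0 hBfin hf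
  refine ⟨w, by simpa [hB] using hw, ?_⟩
  have hfw : f w = ((Y.filter fun i => ρ * ‖x i‖ ≤ ⟪x i, w⟫_ℝ).card : ℝ) := by
    simp only [f, indicator, mem_ofPred_eq]
    rw [Finset.sum_ite]
    simp
  rw [← hfw]
  refine le_trans ?_ hle
  rw [setAverage_eq, smul_eq_mul, inv_mul_eq_div, le_div_iff₀ hBpos,
    integral_finsetSum _ hint]
  have h1 : ∀ i ∈ Y, kap r ρ * volume.real B ≤ ∫ w in B,
      indicator {w : EuclideanSpace ℝ (Fin r) | ρ * ‖x i‖ ≤ ⟪x i, w⟫_ℝ} (fun _ => (1 : ℝ)) w := by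
    intro i _
    rw [integral_indicator (hmeas i), Measure.restrict_restrict (hmeas i)]
    simp only [integral_const, smul_eq_mul, mul_one, measureReal_restrict_apply_univ]
    have h2 := cap' (x i) ρ hρ hρ2 h4
    rw [← hB] at h2
    refine h2.trans (le_of_eq ?_)
    congr 1
    ext v; simp [and_comm]
  calc kap r ρ * Y.card * volume.real B = ∑ i ∈ Y, kap r ρ * volume.real B := by
        rw [Finset.sum_const, nsmul_eq_mul]; ring
    _ ≤ _ := Finset.sum_le_sum h1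

/-- Shrinking: a proportion `kap r ρ` of the points of a ball lies in a slightly smaller ball. -/
lemma shrink_cap {ι : Type*} (Y : Finset ι) (x : ι → EuclideanSpace ℝ (Fin r))
    (c : EuclideanSpace ℝ (Fin r)) (R2 : ℝ) (hR : ∀ i ∈ Y, ‖x i - c‖ ^ 2 ≤ R2) (hR0 : 0 ≤ R2) (ρ : ℝ)
    (hρ : 0 < ρ) (hρ2 : 4 * ρ ^ 2 < 1) (h4 : 4 ≤ r * ρ ^ 2) :
    ∃ c' : EuclideanSpace ℝ (Fin r), ∃ Z ⊆ Y, kap r ρ * Y.card ≤ (Z.card : ℝ) ∧
      ∀ i ∈ Z, ‖x i - c'‖ ^ 2 ≤ R2 * (1 - ρ ^ 2) := by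
  classical
  obtain ⟨w, hw1, hw2⟩ := exists_cap Y (fun i => x i - c) ρ hρ hρ2 h4
  set R := √R2 with hRdef
  have hRsq : R ^ 2 = R2 := Real.sq_sqrt hR0
  have hR0' : 0 ≤ R := Real.sqrt_nonneg _
  refine ⟨c + (ρ * R) • w, Y.filter fun i => ρ * ‖x i - c‖ ≤ ⟪x i - c, w⟫_ℝ,
    Finset.filter_subset _ _, hw2, ?_⟩
  intro i hi
  rw [Finset.mem_filter] at hi
  have h1 : ‖x i - c‖ ^ 2 ≤ R ^ 2 := by rw [hRsq]; exact hR i hi.1
  have h2 : ‖x i - c‖ ≤ R := abs_le_of_sq_le_sq' h1 hR0' |>.2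
  have h3 : x i - (c + (ρ * R) • w) = (x i - c) - (ρ * R) • w := by abel
  rw [h3, norm_sub_sq_real, norm_smul, real_inner_smul_right, mul_pow, Real.norm_eq_abs, sq_abs,
    ← hRsq]
  set s := ‖x i - c‖ with hs
  have hs0 : 0 ≤ s := norm_nonneg _
  have h4 := hi.2
  have hw : ‖w‖ ^ 2 ≤ 1 := by nlinarith [norm_nonneg w]
  have h5 : (ρ * R) ^ 2 * ‖w‖ ^ 2 ≤ (ρ * R) ^ 2 := by nlinarith [sq_nonneg (ρ * R)]
  have h6 : ρ * R * (ρ * s) ≤ ρ * R * ⟪x i - c, w⟫_ℝ := by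
    apply mul_le_mul_of_nonneg_left h4 (by positivity)
  have h7 : s ^ 2 - 2 * (ρ * R * (ρ * s)) + (ρ * R) ^ 2 ≤ R ^ 2 * (1 - ρ ^ 2) := by
    have h8 : 0 ≤ (R - s) := by linarith
    have h9 : R ^ 2 * (1 - ρ ^ 2) - (s ^ 2 - 2 * (ρ * R * (ρ * s)) + (ρ * R) ^ 2) =
      (R - s) * (R + s - 2 * ρ ^ 2 * R) := by ring
    have h10 : 0 ≤ R + s - 2 * ρ ^ 2 * R := by nlinarith
    nlinarith [mul_nonneg h8 h10]
  linarith

end Run7.h571.RD
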