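import Pool.Agent.Run7.h571.RD.Basic

/-!
# Ramsey numbers of distance colourings: the two bounds

Helper file for `MP_28724c_co.DistanceColourings`.
-/

open Filter Topology

namespace Run7.h571.RD

/-! ### The upper bound -/

lemma upper_J (r k J : ℕ) (hJ : 32 ≤ J) (hk : 1 ≤ k) :
    Real.log (distRamsey r k) ≤
      18 + 16 * (r : ℝ) / J + 2 * J + 3 * J * Real.log (1 + k / J) := by
  have hJ32 : (32 : ℝ) ≤ J := by exact_mod_cast hJ
  have hJ0 : (0 : ℝ) < J := by linarith
  set r' := max r J with hr'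
  set T : ℝ := 1 + 16 * (r' : ℝ) / J + 2 * J + 3 * J * Real.log (1 + k / J) with hT
  have hlog0 : 0 ≤ Real.log (1 + (k : ℝ) / J) := Real.log_nonneg (by
    have : (0 : ℝ) ≤ k / J := by positivity
    linarith)
  have hT0 : 0 ≤ T := by positivity
  have hgood : Good r k ⌈Real.exp T⌉₊ := by
    refine good_mono_r (r' := r') ?_ (le_max_left _ _)
    intro x
    obtain ⟨S, hS, hH⟩ := upper (r := r') k ⌈Real.exp T⌉₊ J hJ (le_max_right _ _) hk (by
      rw [← hT]
      rw [Real.le_log_iff_exp_le (by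
        have : 0 < Real.exp T := Real.exp_pos T
        exact lt_of_lt_of_le this (Nat.le_ceil _))]
      exact Nat.le_ceil _) x
    exact ⟨S, hS, hH⟩
  have h1 : (distRamsey r k : ℝ) ≤ Real.exp (T + 1 - 1 / 4) := by
    have h2 : (distRamsey r k : ℝ) ≤ (⌈Real.exp T⌉₊ : ℝ) := by
      exact_mod_cast (good_iff r k _).mp hgood
    have h3 : (⌈Real.exp T⌉₊ : ℝ) < Real.exp T + 1 := Nat.ceil_lt_add_one (Real.exp_nonneg _)
    have h4 : 1 ≤ Real.exp T := Real.one_le_exp hT0
    have h5 : (2 : ℝ) ≤ Real.exp (3 / 4) := by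
      have h6 := Real.exp_one_gt_d9
      have h7 : Real.exp (3 / 4) ^ 4 = Real.exp 1 ^ 3 := by
        rw [← Real.exp_nat_mul, ← Real.exp_nat_mul]; norm_num
      have h8 : (2 : ℝ) ^ 4 ≤ Real.exp (3 / 4) ^ 4 := by
        rw [h7]
        have : (2.718 : ℝ) ^ 3 ≤ Real.exp 1 ^ 3 := pow_le_pow_left₀ (by norm_num) (by linarith) 3
        refine le_trans ?_ this
        norm_num
      exact le_of_pow_le_pow_left₀ (by norm_num) (Real.exp_nonneg _) h8
    calc (distRamsey r k : ℝ) ≤ Real.exp T * 2 := by linarith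
      _ ≤ Real.exp T * Real.exp (3 / 4) := by gcongr
      _ = _ := by rw [← Real.exp_add]; congr 1; ring
  have hpos : (0 : ℝ) < distRamsey r k := by
    have := le_distRamsey r k
    exact_mod_cast lt_of_lt_of_le (by omega) this
  have h9 : Real.log (distRamsey r k) ≤ T + 3 / 4 := by
    rw [Real.log_le_iff_le_exp hpos]
    refine h1.trans (le_of_eq ?_)
    congr 1; ring
  have h10 : (r' : ℝ) ≤ r + J := by
    rw [hr']
    exact_mod_cast max_le (by omega) (by omega)
  have h11 : 16 * (r' : ℝ) / J ≤ 16 * (r : ℝ) / J + 16 := by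
    rw [div_add' _ _ _ hJ0.ne', div_le_div_iff_of_pos_right hJ0]
    linarith
  linarith

/-- The upper bound. -/
theorem upper_bound : ∃ C : ℝ, 0 < C ∧ ∀ r k : ℕ, 1 ≤ r → 2 ≤ k →
    Real.log (distRamsey r k) ≤
      C * (Real.log k + √(r * Real.log (2 + k / √r))) := by
  refine ⟨1300, by norm_num, fun r k hr hk => ?_⟩
  have hr1 : (1 : ℝ) ≤ r := by exact_mod_cast hr
  have hr0 : (0 : ℝ) < r := by linarith
  have hk2 : (2 : ℝ) ≤ k := by exact_mod_cast hk
  have hk0 : (0 : ℝ) < k := by linarith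
  set q := √(r : ℝ) with hq
  have hq0 : 0 < q := Real.sqrt_pos.mpr hr0
  have hq2 : q ^ 2 = r := Real.sq_sqrt hr0.le
  have hq1 : 1 ≤ q := by nlinarith
  set y := (k : ℝ) / q with hy
  have hy0 : 0 < y := by positivity
  set ℓ := Real.log (2 + y) with hℓ
  have hlog2 : 0.6931471803 < Real.log 2 := Real.log_two_gt_d9
  have hℓ0 : 0.69 < ℓ := by
    have : Real.log 2 ≤ ℓ := Real.log_le_log (by norm_num) (by linarith)
    linarith
  have hℓpos : 0 < ℓ := by linarith
  have hlogk : 0.69 < Real.log k := by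
    have : Real.log 2 ≤ Real.log k := Real.log_le_log (by norm_num) hk2
    linarith
  have hℓy : ℓ ≤ 1 + y := by
    have := Real.log_le_sub_one_of_pos (show (0 : ℝ) < 2 + y by linarith)
    linarith
  set s := √(r * ℓ) with hs
  have hs0 : 0 < s := Real.sqrt_pos.mpr (by positivity)
  have hs2 : s ^ 2 = r * ℓ := Real.sq_sqrt (by positivity)
  set x := s / ℓ with hx
  have hx0 : 0 < x := by positivity
  have hxℓ : x * ℓ = s := by rw [hx]; field_simp
  have hx2 : x ^ 2 * ℓ = r := by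
    have h1 : x ^ 2 * ℓ * ℓ = r * ℓ := by
      calc x ^ 2 * ℓ * ℓ = (x * ℓ) ^ 2 := by ring
        _ = r * ℓ := by rw [hxℓ, hs2]
    exact mul_right_cancel₀ hℓpos.ne' h1
  rcases le_or_gt 32 x with hx32 | hx32
  · -- the main case
    have hJ := upper_J r k ⌈x⌉₊ (by
      have : (32 : ℝ) ≤ (⌈x⌉₊ : ℝ) := hx32.trans (Nat.le_ceil _)
      exact_mod_cast this) (by omega)
    set J : ℝ := (⌈x⌉₊ : ℝ) with hJdef
    have hJx : x ≤ J := Nat.le_ceil _
    have hJx' : J ≤ 2 * x := by
      have := Nat.ceil_lt_add_one hx0.le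
      linarith
    have hJ0 : 0 < J := by linarith
    have h1 : 16 * (r : ℝ) / J ≤ 16 * s := by
      rw [div_le_iff₀ hJ0]
      have h2 : (r : ℝ) = s * x := by rw [← hx2, ← hxℓ]; ring
      rw [h2]
      nlinarith [mul_le_mul_of_nonneg_left hJx hs0.le]
    have h2 : 2 * J ≤ 6 * s := by
      have h3 : x ≤ s * 1.5 := by
        rw [← hxℓ]; nlinarith
      linarith
    have h3 : Real.log (1 + k / J) ≤ 2 * ℓ := by
      have h4 : (k : ℝ) / x ≤ y * (2 + y) := by
        rw [div_le_iff₀ hx0]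
        have h5 : (k : ℝ) = y * q := by rw [hy]; field_simp
        rw [h5]
        have h6 : q ≤ (2 + y) * x := by
          have h7 : q ^ 2 ≤ ((2 + y) * x) ^ 2 := by
            rw [hq2, mul_pow, ← hx2]
            have h8 : ℓ ≤ (2 + y) ^ 2 := by nlinarith
            nlinarith [sq_nonneg x]
          exact abs_le_of_sq_le_sq' h7 (by positivity) |>.2
        calc y * q ≤ y * ((2 + y) * x) := by gcongr
          _ = y * (2 + y) * x := by ring
      have h5 : (k : ℝ) / J ≤ k / x := by gcongr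
      have h6 : 1 + (k : ℝ) / J ≤ (2 + y) ^ 2 := by nlinarith
      calc Real.log (1 + k / J) ≤ Real.log ((2 + y) ^ 2) := Real.log_le_log (by positivity) h6
        _ = 2 * ℓ := by rw [Real.log_pow]; norm_num [hℓ]
    have h4 : 3 * J * Real.log (1 + k / J) ≤ 12 * s := by
      calc 3 * J * Real.log (1 + k / J) ≤ 3 * J * (2 * ℓ) := by gcongr
        _ ≤ 3 * (2 * x) * (2 * ℓ) := by gcongr
        _ = 12 * s := by rw [← hxℓ]; ring
    have h5 : (18 : ℝ) ≤ 27 * Real.log k := by linarith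
    nlinarith
  · have hJ := upper_J r k 32 le_rfl (by omega)
    have h1 : (r : ℝ) ≤ 1024 * ℓ := by
      rw [← hx2]
      have : x ^ 2 ≤ 1024 := by nlinarith
      nlinarith
    have h2 : ℓ ≤ 2 * Real.log k := by
      have h3 : 2 + y ≤ (k : ℝ) ^ 2 := by
        have : y ≤ k := by rw [hy]; exact div_le_self hk0.le hq1
        nlinarith
      calc ℓ ≤ Real.log ((k : ℝ) ^ 2) := Real.log_le_log (by positivity) h3
        _ = 2 * Real.log k := by rw [Real.log_pow]; norm_num
    have h3 : Real.log (1 + (k : ℝ) / (32 : ℕ)) ≤ Real.log k := by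
      apply Real.log_le_log (by positivity)
      push_cast
      linarith
    have h4 : (0 : ℝ) ≤ s := hs0.le
    push_cast at hJ h3
    have h5 : 16 * (r : ℝ) / 32 ≤ 1024 * Real.log k := by linarith
    have h6 : 3 * (32 : ℝ) * Real.log (1 + k / 32) ≤ 96 * Real.log k := by linarith
    nlinarith

/-! ### The lower bound -/

lemma lower_pts (n m r : ℕ) (hm : 1 ≤ m) (hr : 500000 * m ^ 2 ≤ r)
    (h : 4 * (n : ℝ) ^ (2 * m) * Real.exp (-(m ^ 2 / 262144)) < 1) :
    ¬ Good r (2 * m) n := by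
  classical
  have hr0 : 0 < r := lt_of_lt_of_le (by positivity) hr
  have hr0R : (0 : ℝ) < r := by exact_mod_cast hr0
  obtain ⟨ω, hω⟩ := exists_signs n m r hr hr0 h
  intro hgood
  let x : Fin n → EuclideanSpace ℝ (Fin r) := fun i =>
    WithLp.toLp 2 fun l => 1 / √(2 * r) * sg (ω l i)
  have hdist : ∀ i j, dist (x i) (x j) ^ 2 = 1 - S i j ω / r := by
    intro i j
    rw [EuclideanSpace.dist_eq, Real.sq_sqrt (Finset.sum_nonneg fun _ _ => by positivity)]
    have h1 : ∀ l, dist (x i l) (x j l) ^ 2 = 1 / (2 * r) * (2 - 2 * (sg (ω l i) * sg (ω l j))) := by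
      intro l
      rw [Real.dist_eq, sq_abs]
      simp only [x]
      rw [← mul_sub, mul_pow, div_pow, Real.sq_sqrt (by positivity), one_pow]
      congr 1
      have h2 := sg_sq (ω l i)
      have h3 := sg_sq (ω l j)
      linear_combination h2 + h3
    rw [Finset.sum_congr rfl fun l _ => h1 l, ← Finset.mul_sum, Finset.sum_sub_distrib,
      ← Finset.mul_sum, Finset.sum_const, Finset.card_univ, Fintype.card_fin]
    unfold S
    rw [nsmul_eq_mul]
    field_simp
  have hle : ∀ i j, dist (x i) (x j) ≤ 1 → 0 ≤ S i j ω := by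
    intro i j h1
    have h2 := hdist i j
    have h3 : dist (x i) (x j) ^ 2 ≤ 1 := by nlinarith [dist_nonneg (x := x i) (y := x j)]
    rw [h2] at h3
    have h4 : 0 ≤ S i j ω / r := by linarith
    have h5 := mul_nonneg h4 hr0R.le
    rwa [div_mul_cancel₀ _ hr0R.ne'] at h5
  have hgt : ∀ i j, 1 < dist (x i) (x j) → S i j ω ≤ 0 := by
    intro i j h1
    have h2 := hdist i j
    have h3 : 1 < dist (x i) (x j) ^ 2 := by nlinarith
    rw [h2] at h3
    by_contra h4
    push Not at h4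
    have : 0 < S i j ω / r := by positivity
    linarith
  obtain ⟨T, hT, hH⟩ := hgood x
  obtain ⟨A, hAT, hA⟩ := Finset.exists_subset_card_eq (show m ≤ T.card by omega)
  have hTA : (T \ A).card = m := by rw [Finset.card_sdiff_of_subset hAT, hT, hA]; omega
  have hdisj : Disjoint A (T \ A) := Finset.disjoint_sdiff
  rcases hH with hH | hH
  · obtain ⟨i, hi, j, hj, hlt⟩ := hω A (T \ A) hdisj hA hTA 1 (by norm_num)
    have hij : i ≠ j := fun h => (Finset.disjoint_left.mp hdisj hi) (h ▸ hj)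
    have := hle i j (hH i (hAT hi) j (Finset.sdiff_subset hj) hij)
    linarith
  · obtain ⟨i, hi, j, hj, hlt⟩ := hω A (T \ A) hdisj hA hTA (-1) (by norm_num)
    have hij : i ≠ j := fun h => (Finset.disjoint_left.mp hdisj hi) (h ▸ hj)
    have := hgt i j (hH i (hAT hi) j (Finset.sdiff_subset hj) hij)
    linarith

lemma lower_m (m r k : ℕ) (hm : 1024 ≤ m) (hr : 500000 * m ^ 2 ≤ r) (hk : 2 * m ≤ k) :
    (m : ℝ) / 1048576 ≤ Real.log (distRamsey r k) := by
  have hm' : (1024 : ℝ) ≤ m := by exact_mod_cast hm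
  set n := ⌊Real.exp ((m : ℝ) / 1048576)⌋₊ with hn
  have hnle : (n : ℝ) ≤ Real.exp ((m : ℝ) / 1048576) := Nat.floor_le (Real.exp_nonneg _)
  have h1 : 4 * (n : ℝ) ^ (2 * m) * Real.exp (-((m : ℝ) ^ 2 / 262144)) < 1 := by
    have h2 : (n : ℝ) ^ (2 * m) ≤ Real.exp ((m : ℝ) ^ 2 / 524288) := by
      calc (n : ℝ) ^ (2 * m) ≤ Real.exp ((m : ℝ) / 1048576) ^ (2 * m) :=
            pow_le_pow_left₀ (Nat.cast_nonneg _) hnle _
        _ = Real.exp ((m : ℝ) ^ 2 / 524288) := by
            rw [← Real.exp_nat_mul]; congr 1; push_cast; ring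
    have h3 : Real.exp ((m : ℝ) ^ 2 / 524288) * Real.exp (-((m : ℝ) ^ 2 / 262144)) ≤
        Real.exp (-2) := by
      rw [← Real.exp_add, Real.exp_le_exp]
      nlinarith
    have h4 : Real.exp (-2) < 1 / 4 := by
      rw [Real.exp_neg, one_div]
      apply inv_strictAnti₀ (by norm_num)
      have h5 := Real.exp_one_gt_d9
      have h6 : Real.exp 2 = Real.exp 1 ^ 2 := by rw [← Real.exp_nat_mul]; norm_num
      rw [h6]; nlinarith
    calc 4 * (n : ℝ) ^ (2 * m) * Real.exp (-((m : ℝ) ^ 2 / 262144)) ≤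
          4 * Real.exp ((m : ℝ) ^ 2 / 524288) * Real.exp (-((m : ℝ) ^ 2 / 262144)) := by gcongr
      _ = 4 * (Real.exp ((m : ℝ) ^ 2 / 524288) * Real.exp (-((m : ℝ) ^ 2 / 262144))) := by ring
      _ < 1 := by linarith
  have h2 := lower_pts n m r (by omega) hr h1
  rw [good_iff, not_le] at h2
  have h3 : n + 1 ≤ distRamsey r k := lt_of_lt_of_le h2 (distRamsey_mono_k r hk)
  have h4 : Real.exp ((m : ℝ) / 1048576) ≤ (distRamsey r k : ℝ) := by
    have h5 := (Nat.lt_floor_add_one (Real.exp ((m : ℝ) / 1048576))).le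
    rw [← hn] at h5
    refine h5.trans ?_
    exact_mod_cast h3
  rw [Real.le_log_iff_exp_le (lt_of_lt_of_le (Real.exp_pos _) h4)]
  exact h4

/-- The lower bound. -/
theorem lower_bound : ∃ c : ℝ, 0 < c ∧ ∀ r k : ℕ, 1 ≤ r → 2 ≤ k →
    c * min (k : ℝ) (√r) ≤ Real.log (distRamsey r k) := by
  refine ⟨1 / 10000000000, by norm_num, fun r k hr hk => ?_⟩
  have hr1 : (1 : ℝ) ≤ r := by exact_mod_cast hr
  have hr0 : (0 : ℝ) < r := by linarith
  have hk2 : (2 : ℝ) ≤ k := by exact_mod_cast hk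
  set a := Nat.sqrt (r / 500000) with ha
  set m := min (k / 2) a with hm
  have ha1 : 500000 * a ^ 2 ≤ r := by
    have h1 : a ^ 2 ≤ r / 500000 := by rw [ha, sq]; exact Nat.sqrt_le _
    calc 500000 * a ^ 2 ≤ 500000 * (r / 500000) := Nat.mul_le_mul_left _ h1
      _ ≤ r := Nat.mul_div_le _ _
  have ha2 : r < 500000 * (a + 1) ^ 2 := by
    have h1 : r / 500000 < (a + 1) ^ 2 := by rw [ha, sq]; exact Nat.lt_succ_sqrt _
    have h2 : r < 500000 * (r / 500000 + 1) := by omega
    exact lt_of_lt_of_le h2 (Nat.mul_le_mul_left _ h1)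
  have hmr : 500000 * m ^ 2 ≤ r := by
    refine le_trans (Nat.mul_le_mul_left _ ?_) ha1
    exact Nat.pow_le_pow_left (min_le_right _ _) 2
  have hmk : 2 * m ≤ k := by
    have : m ≤ k / 2 := min_le_left _ _
    omega
  have hq : √(r : ℝ) ≤ 708 * (a + 1) := by
    rw [Real.sqrt_le_left (by positivity)]
    have h1 : (r : ℝ) < 500000 * (a + 1) ^ 2 := by exact_mod_cast ha2
    nlinarith
  have hmin : min (k : ℝ) (√r) ≤ 708 * (m + 1) := by
    rcases le_total (k / 2) a with h1 | h1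
    · have h2 : m = k / 2 := min_eq_left h1
      refine (min_le_left _ _).trans ?_
      have h3 : k ≤ 708 * (m + 1) := by omega
      exact_mod_cast h3
    · have h2 : m = a := min_eq_right h1
      refine (min_le_right _ _).trans ?_
      rw [h2]; exact hq
  rcases Nat.lt_or_ge m 1024 with h1 | h1
  · have h2 : (m : ℝ) + 1 ≤ 1024 := by exact_mod_cast h1
    have h3 : Real.log 2 ≤ Real.log (distRamsey r k) := by
      apply Real.log_le_log (by norm_num)
      exact_mod_cast hk.trans (le_distRamsey r k)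
    have := Real.log_two_gt_d9
    linarith
  · have h2 := lower_m m r k h1 hmr hmk
    have h3 : (1024 : ℝ) ≤ m := by exact_mod_cast h1
    linarith

end Run7.h571.RD
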