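import Mathlib

/-!
# Sums of signs and bilinear forms of signs

Helper file for `MP_28724c_co.DistanceColourings`.
-/

set_option linter.unusedSectionVars false

namespace Run7.h571.RD

variable {V : Type} [Fintype V] [DecidableEq V]

/-- the sign of a Boolean -/
def sg (b : Bool) : ℝ := if b then -1 else 1

lemma sg_not (b : Bool) : sg (!b) = -sg b := by cases b <;> simp [sg]

lemma sg_sq (b : Bool) : sg b ^ 2 = 1 := by cases b <;> simp [sg]

lemma sg_mul_self (b : Bool) : sg b * sg b = 1 := by cases b <;> simp [sg]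

lemma sg_xor (a b : Bool) : sg (xor a b) = sg a * sg b := by cases a <;> cases b <;> simp [sg]

lemma abs_sg (b : Bool) : |sg b| = 1 := by cases b <;> simp [sg]

/-- the linear form of the signs with coefficients `c` on `A` -/
def L (A : Finset V) (c : V → ℝ) (φ : V → Bool) : ℝ := ∑ v ∈ A, c v * sg (φ v)

/-- flip the sign at `v` -/
def flip (v : V) (φ : V → Bool) : V → Bool := Function.update φ v (!φ v)

lemma flip_invol (v : V) : Function.Involutive (flip v) := by
  intro φ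
  funext w
  by_cases h : w = v
  · subst h; simp [flip]
  · simp [flip, h]

lemma sum_flip {M : Type*} [AddCommMonoid M] (v : V) (f : (V → Bool) → M) :
    ∑ φ, f (flip v φ) = ∑ φ, f φ :=
  Equiv.sum_comp (flip_invol v).toPerm f

lemma flip_same (v : V) (φ : V → Bool) : flip v φ v = !φ v := by simp [flip]

lemma flip_ne {v w : V} (h : w ≠ v) (φ : V → Bool) : flip v φ w = φ w := by simp [flip, h]

lemma L_flip {A : Finset V} {v : V} (hv : v ∉ A) (c : V → ℝ) (φ : V → Bool) :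
    L A c (flip v φ) = L A c φ := by
  unfold L
  refine Finset.sum_congr rfl fun w hw => ?_
  rw [flip_ne (fun h => hv (by rw [← h]; exact hw))]

/-- averaging over one sign -/
lemma avg (v : V) (G : (V → Bool) → ℝ) (hG : ∀ φ, G (flip v φ) = G φ) (h : (V → Bool) → ℝ → ℝ)
    (hh : ∀ φ, h (flip v φ) = h φ) :
    ∑ φ, G φ * h φ (sg (φ v)) = ∑ φ, G φ * ((h φ 1 + h φ (-1)) / 2) := by
  have h1 : ∑ φ, G φ * h φ (sg (φ v)) = ∑ φ, G φ * h φ (-sg (φ v)) := by
    rw [← sum_flip v]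
    refine Finset.sum_congr rfl fun φ _ => ?_
    rw [hG, hh, flip_same, sg_not]
  have h2 : ∑ φ, G φ * ((h φ 1 + h φ (-1)) / 2) =
      (∑ φ, G φ * h φ (sg (φ v)) + ∑ φ, G φ * h φ (-sg (φ v))) / 2 := by
    rw [← Finset.sum_add_distrib, Finset.sum_div]
    refine Finset.sum_congr rfl fun φ _ => ?_
    cases φ v <;> simp [sg] <;> ring
  rw [h2, ← h1]; ring

lemma L_insert {A : Finset V} {v : V} (hv : v ∉ A) (c : V → ℝ) (φ : V → Bool) :
    L (insert v A) c φ = c v * sg (φ v) + L A c φ := by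
  unfold L; rw [Finset.sum_insert hv]

/-- the number of sign vectors -/
noncomputable def NN (V : Type) [Fintype V] : ℝ := 2 ^ Fintype.card V

lemma NN_pos : 0 < NN V := by unfold NN; positivity

lemma sum_const' (a : ℝ) : ∑ _φ : V → Bool, a = NN V * a := by
  rw [Finset.sum_const, nsmul_eq_mul, Finset.card_univ, Fintype.card_fun, Fintype.card_bool]
  simp [NN]

lemma L2 (A : Finset V) (c : V → ℝ) : ∑ φ, L A c φ ^ 2 = NN V * ∑ v ∈ A, c v ^ 2 := by
  induction A using Finset.induction_on with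
  | empty => simp [L]
  | insert v A hv ih =>
    have h1 : ∑ φ, L (insert v A) c φ ^ 2 =
        ∑ φ : V → Bool, 1 * ((fun φ (s : ℝ) => (c v * s + L A c φ) ^ 2) φ (sg (φ v))) := by
      refine Finset.sum_congr rfl fun φ _ => ?_
      rw [L_insert hv, one_mul]
    rw [h1, avg v (fun _ => 1) (fun _ => rfl) (fun φ (s : ℝ) => (c v * s + L A c φ) ^ 2)
      (fun φ => by rw [L_flip hv])]
    have h2 : ∀ φ : V → Bool, (1 : ℝ) * (((c v * 1 + L A c φ) ^ 2 + (c v * -1 + L A c φ) ^ 2) / 2) =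
        L A c φ ^ 2 + c v ^ 2 := fun φ => by ring
    simp only [h2]
    rw [Finset.sum_add_distrib, ih, sum_const', Finset.sum_insert hv]
    ring

lemma L4 (A : Finset V) (c : V → ℝ) :
    ∑ φ, L A c φ ^ 4 ≤ 3 * NN V * (∑ v ∈ A, c v ^ 2) ^ 2 := by
  induction A using Finset.induction_on with
  | empty => simp [L]
  | insert v A hv ih =>
    have h1 : ∑ φ, L (insert v A) c φ ^ 4 =
        ∑ φ : V → Bool, 1 * ((fun φ (s : ℝ) => (c v * s + L A c φ) ^ 4) φ (sg (φ v))) := by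
      refine Finset.sum_congr rfl fun φ _ => ?_
      rw [L_insert hv, one_mul]
    rw [h1, avg v (fun _ => 1) (fun _ => rfl) (fun φ (s : ℝ) => (c v * s + L A c φ) ^ 4)
      (fun φ => by rw [L_flip hv])]
    have h2 : ∀ φ : V → Bool, (1 : ℝ) * (((c v * 1 + L A c φ) ^ 4 + (c v * -1 + L A c φ) ^ 4) / 2) =
        L A c φ ^ 4 + 6 * c v ^ 2 * L A c φ ^ 2 + c v ^ 4 := fun φ => by ring
    simp only [h2]
    rw [Finset.sum_add_distrib, Finset.sum_add_distrib, ← Finset.mul_sum, L2, sum_const',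
      Finset.sum_insert hv]
    have h3 : 0 < NN V := NN_pos
    have h4 : 0 ≤ NN V * c v ^ 4 := by positivity
    nlinarith

lemma Lexp (A : Finset V) (c : V → ℝ) :
    ∑ φ, Real.exp (L A c φ) ≤ NN V * Real.exp ((∑ v ∈ A, c v ^ 2) / 2) := by
  induction A using Finset.induction_on with
  | empty => simp [L, NN]
  | insert v A hv ih =>
    have h1 : ∑ φ, Real.exp (L (insert v A) c φ) =
        ∑ φ : V → Bool, Real.exp (L A c φ) * ((fun _ (s : ℝ) => Real.exp (c v * s)) φ (sg (φ v))) := by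
      refine Finset.sum_congr rfl fun φ _ => ?_
      rw [L_insert hv, Real.exp_add, mul_comm]
    rw [h1, avg v (fun φ => Real.exp (L A c φ)) (fun φ => by rw [L_flip hv])
      (fun _ (s : ℝ) => Real.exp (c v * s)) (fun φ => rfl)]
    have h2 : (Real.exp (c v * 1) + Real.exp (c v * -1)) / 2 ≤ Real.exp (c v ^ 2 / 2) := by
      have := Real.cosh_le_exp_half_sq (c v)
      rw [Real.cosh_eq] at this
      simpa using this
    calc ∑ φ : V → Bool, Real.exp (L A c φ) * ((Real.exp (c v * 1) + Real.exp (c v * -1)) / 2)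
        = (∑ φ : V → Bool, Real.exp (L A c φ)) * ((Real.exp (c v * 1) + Real.exp (c v * -1)) / 2) := by
          rw [Finset.sum_mul]
      _ ≤ (NN V * Real.exp ((∑ v ∈ A, c v ^ 2) / 2)) * Real.exp (c v ^ 2 / 2) := by
          apply mul_le_mul ih h2 (by positivity)
          exact mul_nonneg NN_pos.le (Real.exp_nonneg _)
      _ = _ := by
          rw [Finset.sum_insert hv, mul_assoc, ← Real.exp_add]
          congr 2; ring

/-- the exponential moment of the square of a sum of signs -/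
lemma Zexp (B : Finset V) : ∀ a : ℝ, 0 ≤ a → a * B.card ≤ 1 / 4 →
    ∑ φ, Real.exp (a * L B (fun _ => 1) φ ^ 2) ≤ NN V * Real.exp (2 * a * B.card) := by
  induction B using Finset.induction_on with
  | empty => intro a _ _; simp [L, NN]
  | insert v B hv ih =>
    intro a ha hab
    rw [Finset.card_insert_of_notMem hv] at hab ⊢
    push_cast at hab ⊢
    set b : ℝ := (B.card : ℝ) with hb
    have hb0 : 0 ≤ b := Nat.cast_nonneg _
    have h1 : ∑ φ, Real.exp (a * L (insert v B) (fun _ => 1) φ ^ 2) =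
        ∑ φ : V → Bool, Real.exp (a * L B (fun _ => 1) φ ^ 2 + a) *
          ((fun φ (s : ℝ) => Real.exp (2 * a * L B (fun _ => 1) φ * s)) φ (sg (φ v))) := by
      refine Finset.sum_congr rfl fun φ _ => ?_
      rw [L_insert hv, ← Real.exp_add]
      congr 1
      have := sg_sq (φ v)
      linear_combination a * this
    rw [h1, avg v (fun φ => Real.exp (a * L B (fun _ => 1) φ ^ 2 + a))
      (fun φ => by rw [L_flip hv]) (fun φ (s : ℝ) => Real.exp (2 * a * L B (fun _ => 1) φ * s))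
      (fun φ => by rw [L_flip hv])]
    have h2 : ∀ φ : V → Bool, Real.exp (a * L B (fun _ => 1) φ ^ 2 + a) *
        ((Real.exp (2 * a * L B (fun _ => 1) φ * 1) +
          Real.exp (2 * a * L B (fun _ => 1) φ * -1)) / 2) ≤
        Real.exp a * Real.exp ((a + 2 * a ^ 2) * L B (fun _ => 1) φ ^ 2) := by
      intro φ
      have h3 := Real.cosh_le_exp_half_sq (2 * a * L B (fun _ => 1) φ)
      rw [Real.cosh_eq] at h3
      rw [mul_one, mul_neg_one]
      calc _ ≤ Real.exp (a * L B (fun _ => 1) φ ^ 2 + a) *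
            Real.exp ((2 * a * L B (fun _ => 1) φ) ^ 2 / 2) :=
            mul_le_mul_of_nonneg_left h3 (Real.exp_nonneg _)
        _ = _ := by rw [← Real.exp_add, ← Real.exp_add]; congr 1; ring
    refine (Finset.sum_le_sum fun φ _ => h2 φ).trans ?_
    rw [← Finset.mul_sum]
    have h4 : (a + 2 * a ^ 2) * b ≤ 1 / 4 := by nlinarith
    refine (mul_le_mul_of_nonneg_left (ih (a + 2 * a ^ 2) (by positivity) h4)
      (Real.exp_nonneg _)).trans ?_
    rw [mul_left_comm, ← Real.exp_add]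
    apply mul_le_mul_of_nonneg_left _ NN_pos.le
    rw [Real.exp_le_exp]
    nlinarith [mul_nonneg ha hb0]

/-! ### Decoupling -/

/-- multiply the signs in `A` by `ε` -/
def twist (A : Finset V) (ε φ : V → Bool) : V → Bool :=
  fun v => if v ∈ A then xor (ε v) (φ v) else φ v

lemma twist_invol (A : Finset V) (ε : V → Bool) : Function.Involutive (twist A ε) := by
  intro φ
  funext v
  by_cases h : v ∈ A <;> simp [twist, h]

lemma sum_twist {M : Type*} [AddCommMonoid M] (A : Finset V) (ε : V → Bool)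
    (f : (V → Bool) → M) : ∑ φ, f (twist A ε φ) = ∑ φ, f φ :=
  Equiv.sum_comp (twist_invol A ε).toPerm f

lemma decouple (A : Finset V) (G : (V → Bool) → ℝ) :
    NN V * ∑ φ, G φ = ∑ φ, ∑ ε, G (twist A ε φ) := by
  rw [Finset.sum_comm, ← sum_const']
  exact Finset.sum_congr rfl fun ε _ => (sum_twist A ε G).symm

/-- the bilinear form of the signs -/
def Q (A B : Finset V) (lam : V → V → ℝ) (φ : V → Bool) : ℝ :=
  ∑ i ∈ A, ∑ j ∈ B, lam i j * (sg (φ i) * sg (φ j))

lemma Q_twist {A B : Finset V} (hAB : Disjoint A B) (lam : V → V → ℝ) (ε φ : V → Bool) :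
    Q A B lam (twist A ε φ) = L A (fun i => sg (φ i) * L B (lam i) φ) ε := by
  unfold Q L
  refine Finset.sum_congr rfl fun i hi => ?_
  simp only
  rw [Finset.mul_sum, Finset.sum_mul]
  refine Finset.sum_congr rfl fun j hj => ?_
  have hjA : j ∉ A := fun h => (Finset.disjoint_left.mp hAB h) hj
  simp only [twist, hi, hjA, if_true, if_false]
  rw [sg_xor]; ring

lemma sum_sq_twist {A B : Finset V} (lam : V → V → ℝ) (φ : V → Bool) :
    ∑ i ∈ A, (sg (φ i) * L B (lam i) φ) ^ 2 = ∑ i ∈ A, L B (lam i) φ ^ 2 := by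
  refine Finset.sum_congr rfl fun i _ => ?_
  rw [mul_pow, sg_sq, one_mul]

lemma Q2 {A B : Finset V} (hAB : Disjoint A B) (lam : V → V → ℝ) :
    ∑ φ, Q A B lam φ ^ 2 = NN V * ∑ i ∈ A, ∑ j ∈ B, lam i j ^ 2 := by
  have h1 := decouple A (fun φ => Q A B lam φ ^ 2)
  simp only [Q_twist hAB, L2, sum_sq_twist] at h1
  rw [← Finset.mul_sum, Finset.sum_comm] at h1
  have h2 := mul_left_cancel₀ (NN_pos (V := V)).ne' h1
  rw [h2, Finset.mul_sum]
  exact Finset.sum_congr rfl fun i _ => L2 B (lam i)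

lemma Q4 {A B : Finset V} (hAB : Disjoint A B) (lam : V → V → ℝ) :
    ∑ φ, Q A B lam φ ^ 4 ≤ 9 * NN V * (∑ i ∈ A, ∑ j ∈ B, lam i j ^ 2) ^ 2 := by
  have hN : 0 < NN V := NN_pos
  have h1 := decouple A (fun φ => Q A B lam φ ^ 4)
  simp only [Q_twist hAB] at h1
  have h2 : ∑ φ, ∑ ε, L A (fun i => sg (φ i) * L B (lam i) φ) ε ^ 4 ≤
      ∑ φ : V → Bool, 3 * NN V * (∑ i ∈ A, L B (lam i) φ ^ 2) ^ 2 := by
    refine Finset.sum_le_sum fun φ _ => ?_
    have := L4 A (fun i => sg (φ i) * L B (lam i) φ)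
    rwa [sum_sq_twist] at this
  have hpt : ∀ i i' : V, ∑ φ : V → Bool, L B (lam i) φ ^ 2 * L B (lam i') φ ^ 2 ≤
      3 * NN V * ((∑ j ∈ B, lam i j ^ 2) * (∑ j ∈ B, lam i' j ^ 2)) := by
    intro i i'
    have h5 := Finset.sum_mul_sq_le_sq_mul_sq (Finset.univ : Finset (V → Bool))
      (fun φ => L B (lam i) φ ^ 2) (fun φ => L B (lam i') φ ^ 2)
    have h6 : ∀ i, ∑ φ : V → Bool, (L B (lam i) φ ^ 2) ^ 2 ≤
        3 * NN V * (∑ j ∈ B, lam i j ^ 2) ^ 2 := by
      intro i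
      refine le_trans (le_of_eq ?_) (L4 B (lam i))
      exact Finset.sum_congr rfl fun φ _ => by ring
    have h7 : (∑ φ : V → Bool, L B (lam i) φ ^ 2 * L B (lam i') φ ^ 2) ^ 2 ≤
        (3 * NN V * ((∑ j ∈ B, lam i j ^ 2) * (∑ j ∈ B, lam i' j ^ 2))) ^ 2 := by
      refine h5.trans ((mul_le_mul (h6 i) (h6 i') (by positivity) (by positivity)).trans ?_)
      apply le_of_eq; ring
    have h8 : 0 ≤ 3 * NN V * ((∑ j ∈ B, lam i j ^ 2) * (∑ j ∈ B, lam i' j ^ 2)) := by positivity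
    exact (abs_le_of_sq_le_sq' h7 h8).2
  have h3 : ∑ φ : V → Bool, (∑ i ∈ A, L B (lam i) φ ^ 2) ^ 2 ≤
      3 * NN V * (∑ i ∈ A, ∑ j ∈ B, lam i j ^ 2) ^ 2 := by
    calc ∑ φ : V → Bool, (∑ i ∈ A, L B (lam i) φ ^ 2) ^ 2
        = ∑ φ : V → Bool, ∑ i ∈ A, ∑ i' ∈ A, L B (lam i) φ ^ 2 * L B (lam i') φ ^ 2 := by
          refine Finset.sum_congr rfl fun φ _ => ?_
          rw [sq, Finset.sum_mul_sum]
      _ = ∑ i ∈ A, ∑ i' ∈ A, ∑ φ : V → Bool, L B (lam i) φ ^ 2 * L B (lam i') φ ^ 2 := by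
          rw [Finset.sum_comm]
          refine Finset.sum_congr rfl fun i _ => ?_
          rw [Finset.sum_comm]
      _ ≤ ∑ i ∈ A, ∑ i' ∈ A, 3 * NN V * ((∑ j ∈ B, lam i j ^ 2) * (∑ j ∈ B, lam i' j ^ 2)) :=
          Finset.sum_le_sum fun i _ => Finset.sum_le_sum fun i' _ => hpt i i'
      _ = _ := by
          rw [sq (∑ i ∈ A, ∑ j ∈ B, lam i j ^ 2), Finset.sum_mul_sum, Finset.mul_sum]
          refine Finset.sum_congr rfl fun i _ => ?_
          rw [Finset.mul_sum]
  have h9 : ∑ φ : V → Bool, 3 * NN V * (∑ i ∈ A, L B (lam i) φ ^ 2) ^ 2 ≤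
      3 * NN V * (3 * NN V * (∑ i ∈ A, ∑ j ∈ B, lam i j ^ 2) ^ 2) := by
    rw [← Finset.mul_sum]
    exact mul_le_mul_of_nonneg_left h3 (by positivity)
  have h10 : NN V * ∑ φ, Q A B lam φ ^ 4 ≤
      NN V * (9 * NN V * (∑ i ∈ A, ∑ j ∈ B, lam i j ^ 2) ^ 2) := by
    rw [h1]
    refine h2.trans (h9.trans (le_of_eq ?_))
    ring
  exact le_of_mul_le_mul_left h10 hN

/-! ### The characteristic function -/

lemma cos_le (x : ℝ) : Real.cos x ≤ 1 - x ^ 2 / 2 + x ^ 4 / 2 := by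
  rcases le_or_gt (|x|) 1 with h | h
  · have h1 := Real.cos_bound h
    rw [abs_le] at h1
    have h2 : |x| ^ 4 = x ^ 4 := by
      rw [← abs_pow]; exact abs_of_nonneg (by positivity)
    rw [h2] at h1
    have h3 : 0 ≤ x ^ 4 := by positivity
    linarith [h1.2]
  · have h1 := Real.cos_le_one x
    have h2 : 1 ≤ x ^ 2 := by rw [← sq_abs]; nlinarith
    nlinarith

lemma cosQ_le {A B : Finset V} (hAB : Disjoint A B) (lam : V → V → ℝ)
    (hw : ∑ i ∈ A, ∑ j ∈ B, lam i j ^ 2 ≤ 1 / 45) :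
    ∑ φ, Real.cos (Q A B lam φ) ≤ NN V * (1 - 2 / 5 * ∑ i ∈ A, ∑ j ∈ B, lam i j ^ 2) := by
  set w := ∑ i ∈ A, ∑ j ∈ B, lam i j ^ 2 with hwdef
  have hw0 : 0 ≤ w := by positivity
  have hN : 0 < NN V := NN_pos
  calc ∑ φ, Real.cos (Q A B lam φ) ≤
        ∑ φ, (1 - Q A B lam φ ^ 2 / 2 + Q A B lam φ ^ 4 / 2) :=
        Finset.sum_le_sum fun φ _ => cos_le _
    _ = NN V * 1 - NN V * w / 2 + (∑ φ, Q A B lam φ ^ 4) / 2 := by
        rw [Finset.sum_add_distrib, Finset.sum_sub_distrib, sum_const', ← Finset.sum_div,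
          ← Finset.sum_div, Q2 hAB]
    _ ≤ NN V * 1 - NN V * w / 2 + (9 * NN V * w ^ 2) / 2 := by
        have := Q4 hAB lam
        rw [← hwdef] at this
        linarith
    _ ≤ _ := by
        have h := mul_nonneg (mul_nonneg hN.le hw0) (sub_nonneg.mpr hw)
        linarith [h, mul_comm (NN V) w]

lemma cosQ_ge {A B : Finset V} (hAB : Disjoint A B) (lam : V → V → ℝ)
    (hw : ∑ i ∈ A, ∑ j ∈ B, lam i j ^ 2 ≤ 1 / 45) :
    0 ≤ ∑ φ, Real.cos (Q A B lam φ) := by
  set w := ∑ i ∈ A, ∑ j ∈ B, lam i j ^ 2 with hwdef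
  have hN : 0 < NN V := NN_pos
  calc (0 : ℝ) ≤ NN V * 1 - NN V * w / 2 := by nlinarith
    _ = ∑ φ, (1 - Q A B lam φ ^ 2 / 2) := by
        rw [Finset.sum_sub_distrib, sum_const', ← Finset.sum_div, Q2 hAB]
    _ ≤ _ := Finset.sum_le_sum fun φ _ => Real.one_sub_sq_div_two_le_cos

lemma sinQ {A B : Finset V} (hAB : Disjoint A B) (lam : V → V → ℝ) :
    ∑ φ, Real.sin (Q A B lam φ) = 0 := by
  have h1 := sum_twist A (fun _ => true) (fun φ => Real.sin (Q A B lam φ))
  have h2 : ∀ φ : V → Bool, Q A B lam (twist A (fun _ => true) φ) = -Q A B lam φ := by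
    intro φ
    rw [Q_twist hAB]
    unfold L Q
    rw [← Finset.sum_neg_distrib]
    refine Finset.sum_congr rfl fun i _ => ?_
    simp only [sg, if_true]
    rw [Finset.mul_sum, Finset.sum_mul, ← Finset.sum_neg_distrib]
    refine Finset.sum_congr rfl fun j _ => ?_
    ring
  simp only [h2, Real.sin_neg] at h1
  rw [Finset.sum_neg_distrib] at h1
  linarith

lemma cexpQ {A B : Finset V} (hAB : Disjoint A B) (lam : V → V → ℝ) :
    ∑ φ, Complex.exp ((Q A B lam φ : ℂ) * Complex.I) =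
      ((∑ φ, Real.cos (Q A B lam φ) : ℝ) : ℂ) := by
  simp only [Complex.exp_mul_I]
  rw [Finset.sum_add_distrib, ← Finset.sum_mul]
  have h1 : ∑ φ : V → Bool, Complex.sin (Q A B lam φ : ℂ) = 0 := by
    have := sinQ hAB lam
    have h2 : ((∑ φ, Real.sin (Q A B lam φ) : ℝ) : ℂ) = 0 := by rw [this]; simp
    rw [Complex.ofReal_sum] at h2
    rw [← h2]
    exact Finset.sum_congr rfl fun φ _ => by rw [Complex.ofReal_sin]
  rw [h1, zero_mul, add_zero, Complex.ofReal_sum]
  exact Finset.sum_congr rfl fun φ _ => by rw [Complex.ofReal_cos]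

/-- the exponential moment of the product of two sums of signs -/
lemma expQ {A B : Finset V} (hAB : Disjoint A B) (θ : ℝ)
    (hθ : θ ^ 2 * A.card / 2 * B.card ≤ 1 / 4) :
    ∑ φ, Real.exp (Q A B (fun _ _ => θ) φ) ≤ NN V * Real.exp (θ ^ 2 * A.card * B.card) := by
  have hN : 0 < NN V := NN_pos
  have h1 := decouple A (fun φ => Real.exp (Q A B (fun _ _ => θ) φ))
  simp only [Q_twist hAB] at h1
  have h2 : ∀ φ : V → Bool, ∑ ε, Real.exp (L A (fun i => sg (φ i) * L B (fun _ => θ) φ) ε) ≤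
      NN V * Real.exp (θ ^ 2 * A.card / 2 * L B (fun _ => 1) φ ^ 2) := by
    intro φ
    refine (Lexp A _).trans (le_of_eq ?_)
    congr 2
    have h3 : ∀ i, (sg (φ i) * L B (fun _ => θ) φ) ^ 2 = θ ^ 2 * L B (fun _ => 1) φ ^ 2 := by
      intro i
      rw [mul_pow, sg_sq, one_mul]
      have : L B (fun _ => θ) φ = θ * L B (fun _ => 1) φ := by
        unfold L; rw [Finset.mul_sum]; exact Finset.sum_congr rfl fun v _ => by ring
      rw [this, mul_pow]
    simp only [h3, Finset.sum_const, nsmul_eq_mul]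
    ring
  have h4 : NN V * ∑ φ, Real.exp (Q A B (fun _ _ => θ) φ) ≤
      NN V * (NN V * Real.exp (θ ^ 2 * A.card * B.card)) := by
    rw [h1]
    refine (Finset.sum_le_sum fun φ _ => h2 φ).trans ?_
    rw [← Finset.mul_sum]
    apply mul_le_mul_of_nonneg_left _ hN.le
    refine (Zexp B (θ ^ 2 * A.card / 2) (by positivity) hθ).trans (le_of_eq ?_)
    congr 2; ring
  exact le_of_mul_le_mul_left h4 hN

end Run7.h571.RD
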