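import Pool.Agent.Run7.h571.RD.Cap
import Pool.Agent.H599R2.Ram.ES

/-!
# The upper bound for the Ramsey numbers of distance colourings

Helper file for `MP_28724c_co.DistanceColourings`.
-/

open Metric
open scoped InnerProductSpace RealInnerProductSpace

namespace Run7.h571.RD

/-- all mutual distances are at most one -/
def Red {ι E : Type*} [PseudoMetricSpace E] (x : ι → E) (S : Finset ι) : Prop :=
  ∀ i ∈ S, ∀ j ∈ S, i ≠ j → dist (x i) (x j) ≤ 1

/-- all mutual distances are larger than one -/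
def Blue {ι E : Type*} [PseudoMetricSpace E] (x : ι → E) (S : Finset ι) : Prop :=
  ∀ i ∈ S, ∀ j ∈ S, i ≠ j → 1 < dist (x i) (x j)

lemma Red.mono {ι E : Type*} [PseudoMetricSpace E] {x : ι → E} {S T : Finset ι} (h : Red x T)
    (hST : S ⊆ T) : Red x S := fun i hi j hj hij => h i (hST hi) j (hST hj) hij

lemma Blue.mono {ι E : Type*} [PseudoMetricSpace E] {x : ι → E} {S T : Finset ι} (h : Blue x T)
    (hST : S ⊆ T) : Blue x S := fun i hi j hj hij => h i (hST hi) j (hST hj) hij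

variable {r : ℕ} {ι : Type}

/-- A set of points with mutual distances larger than one in a ball of square radius `R2 < 1/2` is
small. -/
lemma far_card (x : ι → EuclideanSpace ℝ (Fin r)) (Z : Finset ι) (c : EuclideanSpace ℝ (Fin r))
    (R2 : ℝ) (hR : ∀ i ∈ Z, ‖x i - c‖ ^ 2 ≤ R2) (hb : Blue x Z) :
    (Z.card : ℝ) * (Z.card - 1) ≤ 2 * Z.card * (Z.card * R2) := by
  classical
  have h1 : ∑ i ∈ Z, ∑ j ∈ Z, ‖x i - x j‖ ^ 2 =
      2 * Z.card * ∑ i ∈ Z, ‖x i - c‖ ^ 2 - 2 * ‖∑ i ∈ Z, (x i - c)‖ ^ 2 := by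
    have h2 : ∀ i j, ‖x i - x j‖ ^ 2 =
        ‖x i - c‖ ^ 2 - 2 * ⟪x i - c, x j - c⟫_ℝ + ‖x j - c‖ ^ 2 := by
      intro i j
      rw [← norm_sub_sq_real]
      congr 2; abel
    rw [← real_inner_self_eq_norm_sq (∑ i ∈ Z, (x i - c)), sum_inner]
    simp only [inner_sum]
    simp only [h2, Finset.sum_add_distrib, Finset.sum_sub_distrib, Finset.sum_const,
      ← Finset.mul_sum, nsmul_eq_mul]
    ring
  have h3 : ∑ i ∈ Z, ‖x i - c‖ ^ 2 ≤ Z.card * R2 := by
    have := Finset.sum_le_sum hR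
    simpa using this
  have h4 : (Z.card : ℝ) * (Z.card - 1) ≤ ∑ i ∈ Z, ∑ j ∈ Z, ‖x i - x j‖ ^ 2 := by
    have h5 : ∀ i ∈ Z, ((Z.card : ℝ) - 1) ≤ ∑ j ∈ Z, ‖x i - x j‖ ^ 2 := by
      intro i hi
      have h6 : ∑ j ∈ Z.erase i, (1 : ℝ) ≤ ∑ j ∈ Z.erase i, ‖x i - x j‖ ^ 2 := by
        refine Finset.sum_le_sum fun j hj => ?_
        rw [Finset.mem_erase] at hj
        have := hb i hi j hj.2 (Ne.symm hj.1)
        rw [dist_eq_norm] at this
        nlinarith
      have h7 : ∑ j ∈ Z.erase i, ‖x i - x j‖ ^ 2 ≤ ∑ j ∈ Z, ‖x i - x j‖ ^ 2 :=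
        Finset.sum_le_sum_of_subset_of_nonneg (Finset.erase_subset _ _)
          (fun _ _ _ => by positivity)
      refine le_trans (le_trans (le_of_eq ?_) h6) h7
      rw [Finset.sum_const, Finset.card_erase_of_mem hi, nsmul_eq_mul, mul_one,
        Nat.cast_sub (Finset.card_pos.mpr ⟨i, hi⟩)]
      simp
    calc (Z.card : ℝ) * (Z.card - 1) = ∑ i ∈ Z, ((Z.card : ℝ) - 1) := by
          rw [Finset.sum_const, nsmul_eq_mul]
      _ ≤ _ := Finset.sum_le_sum h5
  have h8 : (0 : ℝ) ≤ ‖∑ i ∈ Z, (x i - c)‖ ^ 2 := by positivity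
  have h9 : (0 : ℝ) ≤ 2 * Z.card := by positivity
  nlinarith [mul_le_mul_of_nonneg_left h3 h9]

/-- the last stage -/
lemma final_stage (x : ι → EuclideanSpace ℝ (Fin r)) (J k : ℕ) (hJ : 17 ≤ J) (hJr : J ≤ r)
    (Y : Finset ι) (c : EuclideanSpace ℝ (Fin r)) (hY : ∀ i ∈ Y, ‖x i - c‖ ^ 2 ≤ 1 / 2 + 1 / J)
    (hcard : ((k + J).choose k : ℝ) ≤ kap r (2 / √J) * Y.card) :
    ∃ S ⊆ Y, S.card = k ∧ Red x S := by
  classical
  have hJ0 : (0 : ℝ) < J := by positivity
  have hJ17 : (17 : ℝ) ≤ J := by exact_mod_cast hJ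
  have hJr' : (J : ℝ) ≤ r := by exact_mod_cast hJr
  have hsq : (2 / √(J : ℝ)) ^ 2 = 4 / J := by
    rw [div_pow, Real.sq_sqrt hJ0.le]; norm_num
  obtain ⟨c', Z, hZY, hZc, hZ⟩ := shrink_cap Y x c (1 / 2 + 1 / J) hY (by positivity) (2 / √J)
    (by positivity) (by rw [hsq, mul_div_assoc', div_lt_one hJ0]; linarith)
    (by rw [hsq, mul_div_assoc', le_div_iff₀ hJ0]; linarith)
  have hZR : ∀ i ∈ Z, ‖x i - c'‖ ^ 2 ≤ 1 / 2 - 1 / J := by
    intro i hi
    refine (hZ i hi).trans ?_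
    rw [hsq]
    have h1 : (1 / 2 + 1 / (J : ℝ)) * (1 - 4 / J) = 1 / 2 - 1 / J - 4 / J ^ 2 := by
      field_simp; ring
    rw [h1]
    have : (0 : ℝ) ≤ 4 / J ^ 2 := by positivity
    linarith
  let G : SimpleGraph ι :=
    { Adj := fun i j => i ≠ j ∧ dist (x i) (x j) ≤ 1
      symm := ⟨fun i j h => ⟨h.1.symm, by rw [dist_comm]; exact h.2⟩⟩
      loopless := ⟨fun i h => h.1 rfl⟩ }
  have hle : (k + J).choose k ≤ Z.card := by
    exact_mod_cast hcard.trans hZc
  rcases Pool.Agent.H599R2.Ram.es G (k + J) k J rfl Z hle with ⟨S, hSZ, hS⟩ | ⟨S, hSZ, hS⟩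
  · obtain ⟨T, hTS, hT⟩ := Finset.exists_subset_card_eq (show k ≤ S.card by rw [hS.card_eq]; omega)
    refine ⟨T, hTS.trans (hSZ.trans hZY), hT, ?_⟩
    intro i hi j hj hij
    exact (hS.isClique (hTS hi) (hTS hj) hij).2
  · exfalso
    have hb : Blue x S := by
      intro i hi j hj hij
      have h1 := hS.isIndepSet hi hj hij
      by_contra h2
      exact h1 ⟨hij, not_lt.mp h2⟩
    have h2 := far_card x S c' (1 / 2 - 1 / J) (fun i hi => hZR i (hSZ hi)) hb
    rw [hS.card_eq] at h2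
    push_cast at h2
    have h3 : (0 : ℝ) < (J : ℝ) + 1 := by positivity
    have h4 : ((J : ℝ) + 1) * (J + 1 - 1) ≤ ((J : ℝ) + 1) * (2 * ((J + 1) * (1 / 2 - 1 / J))) := by
      linarith
    have h5 := le_of_mul_le_mul_left h4 h3
    have h6 : 2 * (((J : ℝ) + 1) * (1 / 2 - 1 / J)) = J + 1 - 2 * (J + 1) / J := by
      field_simp
    rw [h6] at h5
    have h7 : 2 < 2 * ((J : ℝ) + 1) / J := by rw [lt_div_iff₀ hJ0]; linarith
    linarith

/-- the shrinking step around a vertex near the boundary -/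
lemma shrink_step (z y c : EuclideanSpace ℝ (Fin r)) (v : ℕ) (hv : 4 ≤ v)
    (hz : ‖z - c‖ ^ 2 ≤ 1 / 2 + 2 / v) (hy : 1 / 2 + 2 / v - 2 / v ^ 2 ≤ ‖y - c‖ ^ 2)
    (hzy : dist z y ≤ 1) :
    ‖z - (c + (2 / v : ℝ) • (y - c))‖ ^ 2 ≤ 1 / 2 + 2 / (v + 1) := by
  have hv4 : (4 : ℝ) ≤ v := by exact_mod_cast hv
  have hv0 : (0 : ℝ) < v := by linarith
  set u : ℝ := 2 / v with hu
  have hu0 : 0 < u := by positivity
  have hu2 : u ≤ 1 / 2 := by rw [hu, div_le_iff₀ hv0]; linarith
  have hu3 : 2 / (v : ℝ) ^ 2 = u ^ 2 / 2 := by rw [hu]; field_simp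
  rw [hu3] at hy
  have hd : ‖z - y‖ ^ 2 ≤ 1 := by
    rw [dist_eq_norm] at hzy
    nlinarith [norm_nonneg (z - y)]
  have h1 : ‖z - y‖ ^ 2 = ‖z - c‖ ^ 2 - 2 * ⟪z - c, y - c⟫_ℝ + ‖y - c‖ ^ 2 := by
    rw [← norm_sub_sq_real]; congr 2; abel
  have h2 : z - (c + u • (y - c)) = (z - c) - u • (y - c) := by abel
  rw [h2, norm_sub_sq_real, norm_smul, real_inner_smul_right, mul_pow, Real.norm_eq_abs, sq_abs]
  set a := ‖z - c‖ ^ 2 with ha
  set b := ‖y - c‖ ^ 2 with hb
  set w := ⟪z - c, y - c⟫_ℝ with hw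
  have h3 : a + b - 1 ≤ 2 * w := by linarith
  have h4 : a - 2 * (u * w) + u ^ 2 * b ≤ (1 - u) * a + u - u * (1 - u) * b := by
    nlinarith
  have h5 : (1 - u) * a ≤ (1 - u) * (1 / 2 + u) := mul_le_mul_of_nonneg_left hz (by linarith)
  have h6 : u * (1 - u) * (1 / 2 + u - u ^ 2 / 2) ≤ u * (1 - u) * b :=
    mul_le_mul_of_nonneg_left hy (mul_nonneg hu0.le (by linarith))
  have h7 : (1 - u) * (1 / 2 + u) + u - u * (1 - u) * (1 / 2 + u - u ^ 2 / 2) ≤
      1 / 2 + u - u ^ 2 / 2 := by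
    nlinarith [mul_pos hu0 hu0, mul_pos (mul_pos hu0 hu0) hu0]
  have h8 : 1 / 2 + u - u ^ 2 / 2 ≤ 1 / 2 + 2 / (v + 1) := by
    have h9 : 2 / ((v : ℝ) + 1) = u / (1 + u / 2) := by rw [hu]; field_simp
    rw [h9]
    have h10 : u - u ^ 2 / 2 ≤ u / (1 + u / 2) := by
      rw [le_div_iff₀ (by positivity)]
      nlinarith [mul_pos (mul_pos hu0 hu0) hu0]
    linarith
  linarith

/-- the recursion inside a ball -/
lemma recursion (x : ι → EuclideanSpace ℝ (Fin r)) (J k : ℕ) (N0 P Q : ℝ) (hN0 : 0 < N0)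
    (hP : 1 < P) (hQ : 1 < Q) (hPQ : 1 / P + 1 / Q = 1)
    (base : ∀ (Y : Finset ι) (c : EuclideanSpace ℝ (Fin r)),
      (∀ i ∈ Y, ‖x i - c‖ ^ 2 ≤ 1 / 2 + 1 / J) → N0 ≤ (Y.card : ℝ) →
      ∃ S ⊆ Y, S.card = k ∧ Red x S) :
    ∀ (d v b : ℕ), v + d = 2 * J → 4 ≤ v → ∀ (Y : Finset ι) (c : EuclideanSpace ℝ (Fin r)),
      (∀ i ∈ Y, ‖x i - c‖ ^ 2 ≤ 1 / 2 + 2 / v) → N0 * P ^ d * Q ^ b ≤ (Y.card : ℝ) →
      (∃ S ⊆ Y, S.card = k ∧ Red x S) ∨ (∃ S ⊆ Y, S.card = b ∧ Blue x S) := by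
  classical
  intro d
  induction d with
  | zero =>
    intro v b hv hv4 Y c hY hc
    left
    refine base Y c ?_ ?_
    · intro i hi
      refine (hY i hi).trans (le_of_eq ?_)
      have hvJ : (v : ℝ) = 2 * J := by exact_mod_cast hv
      rw [hvJ]
      have hJ0 : (J : ℝ) ≠ 0 := by
        intro h
        have : J = 0 := by exact_mod_cast h
        omega
      field_simp
    · refine le_trans ?_ hc
      rw [pow_zero, mul_one]
      exact le_mul_of_one_le_right hN0.le (one_le_pow₀ hQ.le)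
  | succ d ihd =>
    intro v b
    induction b with
    | zero =>
      intro _ _ Y c _ _
      exact Or.inr ⟨∅, Finset.empty_subset _, rfl, fun i hi => absurd hi (Finset.notMem_empty i)⟩
    | succ b ihb =>
      intro hv hv4 Y c hY hc
      have hP0 : 0 < P := by linarith
      have hQ0 : 0 < Q := by linarith
      have hYpos : (0 : ℝ) < Y.card := lt_of_lt_of_le (by positivity) hc
      set Yin := Y.filter (fun i => ‖x i - c‖ ^ 2 ≤ 1 / 2 + 2 / v - 2 / v ^ 2) with hYin
      have hv4' : (4 : ℝ) ≤ v := by exact_mod_cast hv4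
      have hin : (1 : ℝ) / 2 + 2 / v - 2 / v ^ 2 ≤ 1 / 2 + 2 / ((v + 1 : ℕ) : ℝ) := by
        push_cast
        have h1 : (2 : ℝ) / (v + 1) - (2 / v - 2 / v ^ 2) = 2 / (v ^ 2 * (v + 1)) := by
          have : (v : ℝ) ≠ 0 := by linarith
          have : (v : ℝ) + 1 ≠ 0 := by linarith
          field_simp; ring
        have h2 : (0 : ℝ) ≤ 2 / (v ^ 2 * (v + 1)) := by positivity
        linarith
      have hshr : ∀ (Z : Finset ι) (c' : EuclideanSpace ℝ (Fin r)), Z ⊆ Y →
          (∀ i ∈ Z, ‖x i - c'‖ ^ 2 ≤ 1 / 2 + 2 / ((v + 1 : ℕ) : ℝ)) → (Y.card : ℝ) ≤ P * Z.card →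
          (∃ S ⊆ Y, S.card = k ∧ Red x S) ∨ (∃ S ⊆ Y, S.card = b + 1 ∧ Blue x S) := by
        intro Z c' hZY hZ hZc
        have h1 : N0 * P ^ d * Q ^ (b + 1) ≤ (Z.card : ℝ) := by
          have h2 : P * (N0 * P ^ d * Q ^ (b + 1)) ≤ P * Z.card := by
            refine le_trans (le_of_eq ?_) (hc.trans hZc)
            ring
          exact le_of_mul_le_mul_left h2 hP0
        rcases ihd (v + 1) (b + 1) (by omega) (by omega) Z c' hZ h1 with
          ⟨S, hS, h3⟩ | ⟨S, hS, h3⟩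
        · exact Or.inl ⟨S, hS.trans hZY, h3⟩
        · exact Or.inr ⟨S, hS.trans hZY, h3⟩
      rcases le_or_gt (Y.card : ℝ) (P * Yin.card) with h1 | h1
      · refine hshr Yin c (Finset.filter_subset _ _) ?_ h1
        intro i hi
        exact (Finset.mem_filter.mp hi).2.trans hin
      · have h2 : (Yin.card : ℝ) < Y.card := by
          have h3 : (0 : ℝ) ≤ Yin.card := Nat.cast_nonneg _
          nlinarith
        have h2' : Yin.card < Y.card := by exact_mod_cast h2
        obtain ⟨y, hyY, hyin⟩ := Finset.exists_mem_notMem_of_card_lt_card h2'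
        have hyc : 1 / 2 + 2 / v - 2 / v ^ 2 ≤ ‖x y - c‖ ^ 2 := by
          by_contra h3
          exact hyin (Finset.mem_filter.mpr ⟨hyY, (not_le.mp h3).le⟩)
        set Yr := Y.filter (fun i => dist (x i) (x y) ≤ 1) with hYr
        rcases le_or_gt (Y.card : ℝ) (P * Yr.card) with h4 | h4
        · refine hshr Yr (c + (2 / v : ℝ) • (x y - c)) (Finset.filter_subset _ _) ?_ h4
          intro i hi
          rw [Finset.mem_filter] at hi
          have := shrink_step (x i) (x y) c v hv4 (hY i hi.1) hyc hi.2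
          push_cast
          exact this
        · set Yb := Y.filter (fun i => ¬ dist (x i) (x y) ≤ 1) with hYb
          have h5 : Yr.card + Yb.card = Y.card := Finset.card_filter_add_card_filter_not _
          have h5' : (Yr.card : ℝ) + Yb.card = Y.card := by exact_mod_cast h5
          have h6 : (Y.card : ℝ) ≤ Q * Yb.card := by
            have h7 : (Yr.card : ℝ) < Y.card * (1 / P) := by
              rw [mul_one_div, lt_div_iff₀ hP0]; linarith
            have h8 : (Y.card : ℝ) * (1 / Q) ≤ Yb.card := by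
              have h9 : (Y.card : ℝ) * (1 / P) + Y.card * (1 / Q) = Y.card := by
                rw [← mul_add, hPQ, mul_one]
              linarith
            rw [mul_one_div, div_le_iff₀ hQ0] at h8
            linarith
          have h7 : N0 * P ^ (d + 1) * Q ^ b ≤ (Yb.card : ℝ) := by
            have h8 : Q * (N0 * P ^ (d + 1) * Q ^ b) ≤ Q * Yb.card := by
              refine le_trans (le_of_eq ?_) (hc.trans h6)
              ring
            exact le_of_mul_le_mul_left h8 hQ0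
          rcases ihb hv hv4 Yb c (fun i hi => hY i (Finset.mem_of_mem_filter i hi)) h7 with
            ⟨S, hS, h8⟩ | ⟨S, hS, h8, h9⟩
          · exact Or.inl ⟨S, hS.trans (Finset.filter_subset _ _), h8⟩
          · right
            have hyS : y ∉ S := by
              intro h
              have := (Finset.mem_filter.mp (hS h)).2
              simp at this
            refine ⟨insert y S, Finset.insert_subset hyY (hS.trans (Finset.filter_subset _ _)),
              by rw [Finset.card_insert_of_notMem hyS, h8], ?_⟩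
            have hfar : ∀ i ∈ S, 1 < dist (x i) (x y) := fun i hi =>
              not_le.mp (Finset.mem_filter.mp (hS hi)).2
            intro i hi j hj hij
            rw [Finset.mem_insert] at hi hj
            rcases hi with rfl | hi <;> rcases hj with rfl | hj
            · exact absurd rfl hij
            · rw [dist_comm]; exact hfar j hj
            · exact hfar i hi
            · exact h9 i hi j hj hij

/-- the recursion without a ball -/
lemma recursion0 (x : ι → EuclideanSpace ℝ (Fin r)) (J k : ℕ) (hJ : 2 ≤ J) (N0 P Q : ℝ)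
    (hN0 : 0 < N0) (hP : 1 < P) (hQ : 1 < Q) (hPQ : 1 / P + 1 / Q = 1)
    (base : ∀ (Y : Finset ι) (c : EuclideanSpace ℝ (Fin r)),
      (∀ i ∈ Y, ‖x i - c‖ ^ 2 ≤ 1 / 2 + 1 / J) → N0 ≤ (Y.card : ℝ) →
      ∃ S ⊆ Y, S.card = k ∧ Red x S) :
    ∀ (b : ℕ) (Y : Finset ι), N0 * P ^ (2 * J) * Q ^ b ≤ (Y.card : ℝ) →
      (∃ S ⊆ Y, S.card = k ∧ Red x S) ∨ (∃ S ⊆ Y, S.card = b ∧ Blue x S) := by
  classical
  have hP0 : 0 < P := by linarith
  have hQ0 : 0 < Q := by linarith
  intro b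
  induction b with
  | zero =>
    intro Y _
    exact Or.inr ⟨∅, Finset.empty_subset _, rfl, fun i hi => absurd hi (Finset.notMem_empty i)⟩
  | succ b ihb =>
    intro Y hc
    have hYpos : (0 : ℝ) < Y.card := lt_of_lt_of_le (by positivity) hc
    obtain ⟨y, hyY⟩ := Finset.card_pos.mp (by exact_mod_cast hYpos)
    set Yr := Y.filter (fun i => dist (x i) (x y) ≤ 1) with hYr
    rcases le_or_gt (Y.card : ℝ) (P * Yr.card) with h4 | h4
    · have h5 : N0 * P ^ (2 * J - 4) * Q ^ (b + 1) ≤ (Yr.card : ℝ) := by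
        have h6 : P * (N0 * P ^ (2 * J - 4) * Q ^ (b + 1)) ≤ P * Yr.card := by
          refine le_trans ?_ (hc.trans h4)
          have h7 : P ^ (2 * J - 4 + 1) ≤ P ^ (2 * J) := pow_le_pow_right₀ hP.le (by omega)
          calc P * (N0 * P ^ (2 * J - 4) * Q ^ (b + 1)) =
                N0 * P ^ (2 * J - 4 + 1) * Q ^ (b + 1) := by ring
            _ ≤ _ := by gcongr
        exact le_of_mul_le_mul_left h6 hP0
      rcases recursion x J k N0 P Q hN0 hP hQ hPQ base (2 * J - 4) 4 (b + 1) (by omega) le_rfl Yr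
        (x y) (by
          intro i hi
          have h8 := (Finset.mem_filter.mp hi).2
          rw [dist_eq_norm] at h8
          norm_num
          nlinarith [norm_nonneg (x i - x y)]) h5 with ⟨S, hS, h3⟩ | ⟨S, hS, h3⟩
      · exact Or.inl ⟨S, hS.trans (Finset.filter_subset _ _), h3⟩
      · exact Or.inr ⟨S, hS.trans (Finset.filter_subset _ _), h3⟩
    · set Yb := Y.filter (fun i => ¬ dist (x i) (x y) ≤ 1) with hYb
      have h5 : Yr.card + Yb.card = Y.card := Finset.card_filter_add_card_filter_not _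
      have h5' : (Yr.card : ℝ) + Yb.card = Y.card := by exact_mod_cast h5
      have h6 : (Y.card : ℝ) ≤ Q * Yb.card := by
        have h7 : (Yr.card : ℝ) < Y.card * (1 / P) := by
          rw [mul_one_div, lt_div_iff₀ hP0]; linarith
        have h8 : (Y.card : ℝ) * (1 / Q) ≤ Yb.card := by
          have h9 : (Y.card : ℝ) * (1 / P) + Y.card * (1 / Q) = Y.card := by
            rw [← mul_add, hPQ, mul_one]
          linarith
        rw [mul_one_div, div_le_iff₀ hQ0] at h8
        linarith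
      have h7 : N0 * P ^ (2 * J) * Q ^ b ≤ (Yb.card : ℝ) := by
        have h8 : Q * (N0 * P ^ (2 * J) * Q ^ b) ≤ Q * Yb.card := by
          refine le_trans (le_of_eq ?_) (hc.trans h6)
          ring
        exact le_of_mul_le_mul_left h8 hQ0
      rcases ihb Yb h7 with ⟨S, hS, h8⟩ | ⟨S, hS, h8, h9⟩
      · exact Or.inl ⟨S, hS.trans (Finset.filter_subset _ _), h8⟩
      · right
        have hyS : y ∉ S := by
          intro h
          have := (Finset.mem_filter.mp (hS h)).2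
          simp at this
        refine ⟨insert y S, Finset.insert_subset hyY (hS.trans (Finset.filter_subset _ _)),
          by rw [Finset.card_insert_of_notMem hyS, h8], ?_⟩
        have hfar : ∀ i ∈ S, 1 < dist (x i) (x y) := fun i hi =>
          not_le.mp (Finset.mem_filter.mp (hS hi)).2
        intro i hi j hj hij
        rw [Finset.mem_insert] at hi hj
        rcases hi with rfl | hi <;> rcases hj with rfl | hj
        · exact absurd rfl hij
        · rw [dist_comm]; exact hfar j hj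
        · exact hfar i hi
        · exact h9 i hi j hj hij

end Run7.h571.RD
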