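import Pool.Agent.Run7.h571.RD.Up

/-!
# The upper bound for the Ramsey numbers of distance colourings: numerical form

Helper file for `MP_28724c_co.DistanceColourings`.
-/

open Metric

namespace Run7.h571.RD

variable {r : ℕ}

lemma choose_le (k J : ℕ) (P Q : ℝ) (hP : 0 < P) (hQ : 0 < Q) (hPQ : 1 / P + 1 / Q = 1) :
    ((k + J).choose k : ℝ) ≤ P ^ J * Q ^ k := by
  have h1 : (1 / Q + 1 / P) ^ (k + J) = 1 := by rw [add_comm, hPQ, one_pow]
  rw [add_pow] at h1
  have h2 : (1 / Q) ^ k * (1 / P) ^ (k + J - k) * ((k + J).choose k : ℝ) ≤ 1 := by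
    refine le_trans ?_ (le_of_eq h1)
    exact Finset.single_le_sum (f := fun m => (1 / Q) ^ m * (1 / P) ^ (k + J - m) *
      ((k + J).choose m : ℝ)) (s := Finset.range (k + J + 1)) (a := k) (fun _ _ => by positivity)
      (Finset.mem_range.mpr (by omega))
  rw [Nat.add_sub_cancel_left, one_div, one_div, inv_pow, inv_pow, ← mul_inv, inv_mul_eq_div,
    div_le_one (by positivity)] at h2
  linarith

lemma log_kap (r J : ℕ) (hJ : 32 ≤ J) :
    0 < kap r (2 / √J) ∧ -(1 + 16 * (r : ℝ) / J) ≤ Real.log (kap r (2 / √J)) := by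
  have hJ32 : (32 : ℝ) ≤ J := by exact_mod_cast hJ
  have hJ0 : (0 : ℝ) < J := by linarith
  have hsq : 1 - 4 * (2 / √(J : ℝ)) ^ 2 = 1 - 16 / J := by
    rw [div_pow, Real.sq_sqrt hJ0.le]; ring
  have hy : (16 : ℝ) / J ≤ 1 / 2 := by rw [div_le_iff₀ hJ0]; linarith
  have hy0 : (0 : ℝ) < 16 / J := by positivity
  have hpos : (0 : ℝ) < 1 - 16 / J := by linarith
  unfold kap
  rw [hsq]
  refine ⟨by positivity, ?_⟩
  rw [Real.log_mul (by norm_num) (by positivity), Real.log_pow, Real.log_sqrt hpos.le]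
  have h1 : -1 ≤ Real.log (3 / 8) := by
    rw [← Real.exp_le_exp, Real.exp_log (by norm_num)]
    have h2 := Real.exp_one_gt_d9
    rw [Real.exp_neg, inv_le_comm₀ (Real.exp_pos 1) (by norm_num)]
    linarith
  have h2 : -(2 * (16 / (J : ℝ))) ≤ Real.log (1 - 16 / J) := by
    have h3 := Real.one_sub_inv_le_log_of_pos hpos
    refine le_trans ?_ h3
    have h4 : (1 - 16 / (J : ℝ))⁻¹ ≤ 1 + 2 * (16 / J) := by
      rw [inv_le_iff_one_le_mul₀ hpos]
      nlinarith
    linarith
  have h3 : (r : ℝ) * (-(2 * (16 / (J : ℝ))) / 2) ≤ r * (Real.log (1 - 16 / J) / 2) := by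
    apply mul_le_mul_of_nonneg_left _ (Nat.cast_nonneg r)
    linarith
  have h4 : (r : ℝ) * (-(2 * (16 / (J : ℝ))) / 2) = -(16 * r / J) := by ring
  linarith

/-- The upper bound with the free parameter `J`. -/
theorem upper (k n J : ℕ) (hJ : 32 ≤ J) (hJr : J ≤ r) (hk : 1 ≤ k)
    (h : 1 + 16 * (r : ℝ) / J + 2 * J + 3 * J * Real.log (1 + k / J) ≤ Real.log n)
    (x : Fin n → EuclideanSpace ℝ (Fin r)) :
    ∃ S : Finset (Fin n), S.card = k ∧ (Red x S ∨ Blue x S) := by
  have hJ32 : (32 : ℝ) ≤ J := by exact_mod_cast hJ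
  have hJ0 : (0 : ℝ) < J := by linarith
  have hk1 : (1 : ℝ) ≤ k := by exact_mod_cast hk
  have hk0 : (0 : ℝ) < k := by linarith
  obtain ⟨hkap, hlkap⟩ := log_kap r J hJ
  set P : ℝ := 1 + k / J with hP
  set Q : ℝ := 1 + J / k with hQ
  have hP1 : 1 < P := by rw [hP]; have : 0 < (k : ℝ) / J := by positivity
                         linarith
  have hQ1 : 1 < Q := by rw [hQ]; have : 0 < (J : ℝ) / k := by positivity
                         linarith
  have hPQ : 1 / P + 1 / Q = 1 := by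
    rw [hP, hQ]; field_simp; ring
  have hP0 : 0 < P := by linarith
  have hQ0 : 0 < Q := by linarith
  have hch := choose_le k J P Q hP0 hQ0 hPQ
  have hch0 : (0 : ℝ) < ((k + J).choose k : ℝ) := by
    exact_mod_cast Nat.choose_pos (Nat.le_add_right k J)
  set N0 : ℝ := ((k + J).choose k : ℝ) / kap r (2 / √J) with hN0
  have hN0pos : 0 < N0 := by positivity
  have hbase : ∀ (Y : Finset (Fin n)) (c : EuclideanSpace ℝ (Fin r)),
      (∀ i ∈ Y, ‖x i - c‖ ^ 2 ≤ 1 / 2 + 1 / J) → N0 ≤ (Y.card : ℝ) →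
      ∃ S ⊆ Y, S.card = k ∧ Red x S := by
    intro Y c hY hc
    refine final_stage x J k (by omega) hJr Y c hY ?_
    rw [hN0, div_le_iff₀ hkap] at hc
    linarith
  have hlogQ : (k : ℝ) * Real.log Q ≤ J := by
    have h1 : Real.log Q ≤ Q - 1 := Real.log_le_sub_one_of_pos hQ0
    have h2 : (k : ℝ) * (Q - 1) = J := by rw [hQ]; field_simp; ring
    calc (k : ℝ) * Real.log Q ≤ k * (Q - 1) := mul_le_mul_of_nonneg_left h1 hk0.le
      _ = J := h2
  have hn0 : (0 : ℝ) < n := by
    rcases Nat.eq_zero_or_pos n with h0 | h0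
    · exfalso
      rw [h0] at h
      simp only [Nat.cast_zero, Real.log_zero] at h
      have : 0 ≤ Real.log (1 + k / J) := Real.log_nonneg hP1.le
      have h2 : 0 ≤ 16 * (r : ℝ) / J := by positivity
      have h3 : 0 ≤ 3 * (J : ℝ) * Real.log (1 + k / J) := by positivity
      linarith
    · exact_mod_cast h0
  have hlogN : Real.log (N0 * P ^ (2 * J) * Q ^ k) ≤ Real.log n := by
    rw [Real.log_mul (by positivity) (by positivity), Real.log_mul (by positivity) (by positivity),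
      hN0, Real.log_div hch0.ne' hkap.ne', Real.log_pow, Real.log_pow]
    have h1 : Real.log ((k + J).choose k : ℝ) ≤ J * Real.log P + k * Real.log Q := by
      have := Real.log_le_log hch0 hch
      rwa [Real.log_mul (by positivity) (by positivity), Real.log_pow, Real.log_pow] at this
    push_cast
    linarith
  have hle : N0 * P ^ (2 * J) * Q ^ k ≤ ((Finset.univ : Finset (Fin n)).card : ℝ) := by
    rw [Finset.card_univ, Fintype.card_fin]
    exact (Real.log_le_log_iff (by positivity) hn0).mp hlogN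
  rcases recursion0 x J k (by omega) N0 P Q hN0pos hP1 hQ1 hPQ hbase k Finset.univ hle with
    ⟨S, _, hS, hR⟩ | ⟨S, _, hS, hB⟩
  · exact ⟨S, hS, Or.inl hR⟩
  · exact ⟨S, hS, Or.inr hB⟩

end Run7.h571.RD
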